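import Pool.Agent.Work.MP_8d13b5_lc.Fg.ResultFixedGroup
import Pool.Agent.Work.MP_8d13b5_lc.Fm.FamilyReductionProof
import Pool.Agent.Work.MP_8d13b5_lc.Fm.StmtsSimple

set_option autoImplicit false

/-!
# One-parameter families of linear recurrences: all members, all initial values

The reduction of `FamilyReduction` (large heights reduce to one recurrence with constant
coefficients) and the theorem on one fixed recurrence of `FixedGroup` (Subspace Theorem).
-/

namespace Pool.Agent.Work.MP_8d13b5_lc.Fg.AllFamilies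

open Pool.Agent.Work.MP_8d13b5_lc Pool.Agent.Work.MP_8d13b5_lc.Fm.FamilyReduction Polynomial Finset

/-- the coefficients of the recurrence of `f` as a list -/
def cl (f : ℤ[X]) : List ℤ := (List.range f.natDegree).map fun j => -f.coeff (f.natDegree - 1 - j)

theorem cl_length (f : ℤ[X]) : (cl f).length = f.natDegree := by simp [cl]

theorem cl_getD (f : ℤ[X]) (j : ℕ) (hj : j < f.natDegree) :
    (cl f).getD j 0 = -f.coeff (f.natDegree - 1 - j) := by
  rw [List.getD_eq_getElem _ _ (by simpa [cl] using hj)]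
  simp [cl]

theorem isSeq {f : ℤ[X]} (hf : f.Monic) (h0 : f.coeff 0 ≠ 0) (hd : 1 ≤ f.natDegree)
    (w : ℕ → ℤ) (hw : RecZ f w) (l : List ℤ) (hl : l.length = f.natDegree)
    (hi : ∀ i < f.natDegree, w i = l.getD i 0) :
    Pool.Agent.Results.MP_8d13b5_lc.FixedGroup.IsSeq (cl f, l) w := by
  have hlen : (cl f).length = f.natDegree := cl_length f
  refine ⟨by rw [hlen, hl], by rw [hlen]; exact hd, ?_, fun i h => hi i (by rwa [hlen] at h), ?_⟩
  · show (cl f).getD ((cl f).length - 1) 0 ≠ 0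
    rw [hlen, cl_getD f _ (by omega), Nat.sub_self]
    exact neg_ne_zero.2 h0
  · intro n
    show w (n + (cl f).length) = ∑ j ∈ range (cl f).length,
      (cl f).getD j 0 * w (n + (cl f).length - 1 - j)
    rw [hlen]
    have h1 := hw n
    rw [Finset.sum_range_succ, hf.coeff_natDegree, one_mul] at h1
    have h2 : ∑ j ∈ range f.natDegree, (cl f).getD j 0 * w (n + f.natDegree - 1 - j) =
        ∑ j ∈ range f.natDegree, (fun i => -f.coeff i * w (n + i)) (f.natDegree - 1 - j) := by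
      refine Finset.sum_congr rfl fun j hj => ?_
      rw [Finset.mem_range] at hj
      rw [cl_getD f j hj]
      show -f.coeff (f.natDegree - 1 - j) * w (n + f.natDegree - 1 - j) =
        -f.coeff (f.natDegree - 1 - j) * w (n + (f.natDegree - 1 - j))
      congr 2
      omega
    rw [h2, Finset.sum_range_reflect (fun i => -f.coeff i * w (n + i))]
    simp only [neg_mul, Finset.sum_neg_distrib]
    linarith

/-- simple roots -/
theorem simple_cl {f : ℤ[X]} (hf : f.Monic) (hs : (f.map (Int.castRingHom ℚ)).Separable) :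
    Pool.Agent.Results.MP_8d13b5_lc.FixedGroup.Simple (cl f) := by
  have hC : (f.map (algebraMap ℤ ℂ)).Separable := by
    have e : f.map (algebraMap ℤ ℂ) = (f.map (Int.castRingHom ℚ)).map (algebraMap ℚ ℂ) := by
      rw [Polynomial.map_map]
      congr 1
    rw [e]
    exact (Polynomial.separable_map _).2 hs
  have hm : (f.map (algebraMap ℤ ℂ)).Monic := hf.map _
  refine ⟨((f.map (algebraMap ℤ ℂ)).roots).toFinset, ?_, fun z hz => ?_⟩
  · rw [Multiset.toFinset_card_of_nodup (nodup_roots hC), cl_length]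
    have h1 := (IsAlgClosed.splits (f.map (algebraMap ℤ ℂ))).natDegree_eq_card_roots
    rw [← h1, hf.natDegree_map]
  · rw [Multiset.mem_toFinset, mem_roots hm.ne_zero, Polynomial.IsRoot.def, eval_map_algebraMap,
      aeval_eq_sum_range, Finset.sum_range_succ, hf.coeff_natDegree, one_smul] at hz
    show z ^ (cl f).length = ∑ j ∈ range (cl f).length,
      (((cl f).getD j 0 : ℤ) : ℂ) * z ^ ((cl f).length - 1 - j)
    rw [cl_length]
    have h2 : ∑ j ∈ range f.natDegree, (((cl f).getD j 0 : ℤ) : ℂ) * z ^ (f.natDegree - 1 - j) =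
        ∑ j ∈ range f.natDegree, (fun i => -(f.coeff i • z ^ i)) (f.natDegree - 1 - j) := by
      refine Finset.sum_congr rfl fun j hj => ?_
      rw [Finset.mem_range] at hj
      rw [cl_getD f j hj]
      show _ = -(f.coeff (f.natDegree - 1 - j) • z ^ (f.natDegree - 1 - j))
      rw [zsmul_eq_mul, Int.cast_neg, neg_mul]
    rw [h2, Finset.sum_range_reflect (fun i => -(f.coeff i • z ^ i)), Finset.sum_neg_distrib]
    exact eq_neg_of_add_eq_zero_right hz

theorem size_num (C d : ℕ) : ∃ C' : ℕ, ∀ x : ℕ, (d * x + 2) ^ C ≤ (x + 2) ^ C' ∧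
    C * (Nat.log 2 (d * x + 2) + 1) ≤ C' * (Nat.log 2 (x + 2) + 1) := by
  refine ⟨(d + 1) * C, fun x => ?_⟩
  have h1 : d * x + 2 ≤ (x + 2) ^ (d + 1) := by
    have h2 : d + 1 ≤ 2 ^ d := Nat.lt_two_pow_self
    have h3 : 2 ^ d ≤ (x + 2) ^ d := Nat.pow_le_pow_left (by omega) d
    calc d * x + 2 ≤ (d + 1) * (x + 2) := by nlinarith
      _ ≤ (x + 2) ^ d * (x + 2) := Nat.mul_le_mul_right _ (h2.trans h3)
      _ = (x + 2) ^ (d + 1) := (pow_succ _ _).symm
  constructor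
  · calc (d * x + 2) ^ C ≤ ((x + 2) ^ (d + 1)) ^ C := Nat.pow_le_pow_left h1 C
      _ = (x + 2) ^ ((d + 1) * C) := (pow_mul _ _ _).symm
  · have h2 : Nat.log 2 (d * x + 2) + 1 ≤ (d + 1) * (Nat.log 2 (x + 2) + 1) := by
      have h3 : d * x + 2 < 2 ^ ((d + 1) * (Nat.log 2 (x + 2) + 1)) := by
        calc d * x + 2 ≤ (x + 2) ^ (d + 1) := h1
          _ < (2 ^ (Nat.log 2 (x + 2) + 1)) ^ (d + 1) :=
              Nat.pow_lt_pow_left (Nat.lt_pow_succ_log_self (by norm_num) _) (by omega)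
          _ = 2 ^ ((d + 1) * (Nat.log 2 (x + 2) + 1)) := by rw [← pow_mul, mul_comm (d + 1)]
      exact Nat.succ_le_of_lt (Nat.log_lt_of_lt_pow (by omega) h3)
    calc C * (Nat.log 2 (d * x + 2) + 1) ≤ C * ((d + 1) * (Nat.log 2 (x + 2) + 1)) :=
          Nat.mul_le_mul_left _ h2
      _ = (d + 1) * C * (Nat.log 2 (x + 2) + 1) := by ring

theorem sum_le (w : ℕ → ℤ) (S d : ℕ) (h : ∀ i < d, (w i).natAbs ≤ S) :
    (((List.range d).map w).map Int.natAbs).sum ≤ d * S := by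
  induction d with
  | zero => simp
  | succ d ih =>
    rw [List.range_succ, List.map_append, List.map_append, List.sum_append]
    have h1 := ih fun i hi => h i (by omega)
    have h2 := h d (by omega)
    simp only [List.map_cons, List.map_nil, List.sum_cons, List.sum_nil, add_zero]
    have h3 : (d + 1) * S = d * S + S := by ring
    omega

/-- the zeros `n ≥ b S` of the solutions of the recurrence of `f` with initial values at most `S` lie in
classes modulo `M` of zeros -/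
def Cls (f : ℤ[X]) (M : ℕ) (b : ℕ → ℕ) : Prop := ∀ w : ℕ → ℤ, RecZ f w → ∀ S : ℕ,
  (∀ i < f.natDegree, (w i).natAbs ≤ S) → ∀ n, b S ≤ n → w n = 0 → ∀ k, w (n % M + k * M) = 0

/-- a fixed recurrence over the integers -/
theorem fixedZ {f : ℤ[X]} (hf : f.Monic) (h0 : f.coeff 0 ≠ 0) :
    ∃ M C : ℕ, 0 < M ∧ Cls f M (fun S => (S + 2) ^ C) ∧
      ((f.map (Int.castRingHom ℚ)).Separable →
        Cls f M (fun S => C * (Nat.log 2 (S + 2) + 1))) ∧
      ∃ A : List ℤ → Bool, Primrec A ∧ ∀ l, l.length = f.natDegree →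
        ∀ w : ℕ → ℤ, RecZ f w → (∀ i < f.natDegree, w i = l.getD i 0) →
          (A l = true ↔ ∃ n, w n = 0) := by
  rcases Nat.eq_zero_or_pos f.natDegree with hd | hd
  · have h1 : ∀ w : ℕ → ℤ, RecZ f w → ∀ n, w n = 0 := by
      intro w hw n
      have h2 := hw n
      rw [hd] at h2
      have h3 : f.coeff 0 = 1 := by
        have := hf.coeff_natDegree
        rwa [hd] at this
      simpa [h3] using h2
    exact ⟨1, 0, one_pos, fun w hw S _ n _ _ k => h1 w hw _, fun _ w hw S _ n _ _ k => h1 w hw _,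
      fun _ => true, Primrec.const true,
      fun l _ w hw _ => ⟨fun _ => ⟨0, h1 w hw 0⟩, fun _ => rfl⟩⟩
  · obtain ⟨M, C, hM, H, A, hA, hA2⟩ :=
      Pool.Agent.Results.MP_8d13b5_lc.FixedGroup.fixed_recurrence (cl f)
    obtain ⟨C', hC'⟩ := size_num C f.natDegree
    have h1 : ∀ w : ℕ → ℤ, RecZ f w →
        Pool.Agent.Results.MP_8d13b5_lc.FixedGroup.IsSeq (cl f, (List.range f.natDegree).map w) w := by
      intro w hw
      refine isSeq hf h0 hd w hw ((List.range f.natDegree).map w) (by simp) fun i hi => ?_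
      rw [List.getD_eq_getElem _ _ (by simpa using hi)]
      simp
    refine ⟨M, C', hM, fun w hw S hS n hn hn0 => ?_, fun hs w hw S hS n hn hn0 => ?_, A, hA,
      fun l hl w hw hi => ?_⟩
    · refine (H _ w (h1 w hw)).1 n (le_trans ?_ hn) hn0
      refine le_trans (Nat.pow_le_pow_left ?_ C) (hC' S).1
      exact Nat.add_le_add_right (sum_le w S f.natDegree hS) 2
    · refine (H _ w (h1 w hw)).2 (simple_cl hf hs) n (le_trans ?_ hn) hn0
      refine le_trans (Nat.mul_le_mul_left C ?_) (hC' S).2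
      exact Nat.add_le_add_right (Nat.log_mono_right
        (Nat.add_le_add_right (sum_le w S f.natDegree hS) 2)) 1
    · exact hA2 l w (isSeq hf h0 hd w hw l hl hi)

section members

variable {d s : ℕ} {F : ℤ[X][X]}

open Pool.Agent.Work.MP_8d13b5_lc.Fm in
/-- the constant coefficient of the recurrence of a member -/
theorem hev_eq (D : ℕ) (P : ℤ[X]) (h : P.natDegree ≤ D) (t : ℚ) :
    ((hev D P t.num (t.den : ℤ) : ℤ) : ℚ) = (t.den : ℚ) ^ D * aeval t P := by
  have hd0 : (t.den : ℚ) ≠ 0 := by exact_mod_cast t.den_ne_zero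
  have ht : (t.num : ℚ) / t.den = t := Rat.num_div_den t
  unfold hev
  rw [aeval_eq_sum_range' (Nat.lt_succ_of_le h), Finset.mul_sum]
  push_cast
  refine Finset.sum_congr rfl fun i hi => ?_
  rw [Finset.mem_range, Nat.lt_succ_iff] at hi
  have e : t ^ i = (t.num : ℚ) ^ i / (t.den : ℚ) ^ i := by rw [← div_pow, ht]
  rw [zsmul_eq_mul, e]
  obtain ⟨k, rfl⟩ := Nat.exists_eq_add_of_le hi
  rw [Nat.add_sub_cancel_left, pow_add]
  field_simp

theorem log_le (a X p : ℕ) (ha : a ≠ 0) (h : a ≤ X ^ p) (hp : 1 ≤ p) :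
    Nat.log 2 a + 1 ≤ p * (Nat.log 2 X + 1) := by
  have h3 : a < 2 ^ (p * (Nat.log 2 X + 1)) := by
    calc a ≤ X ^ p := h
      _ < (2 ^ (Nat.log 2 X + 1)) ^ p :=
          Nat.pow_lt_pow_left (Nat.lt_pow_succ_log_self (by norm_num) _) (by omega)
      _ = 2 ^ (p * (Nat.log 2 X + 1)) := by rw [← pow_mul, mul_comm p]
  exact Nat.succ_le_of_lt (Nat.log_lt_of_lt_pow ha h3)

theorem bnd (B T p : ℕ) (hT : 1 ≤ T) : B * T ^ p + 2 ≤ (B * T + 2) ^ (p + 1) := by
  rcases Nat.eq_zero_or_pos B with h | h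
  · subst h
    simp only [zero_mul, zero_add]
    exact Nat.le_self_pow (by omega) 2
  · have h1 : T ≤ B * T + 2 := (Nat.le_mul_of_pos_left T h).trans (by omega)
    have h2 : T ^ p ≤ (B * T + 2) ^ p := Nat.pow_le_pow_left h1 p
    have h3 : 1 ≤ (B * T + 2) ^ p := Nat.one_le_pow _ _ (by omega)
    have h4 : B ≤ B * T := Nat.le_mul_of_pos_right B hT
    calc B * T ^ p + 2 ≤ B * (B * T + 2) ^ p + 2 * (B * T + 2) ^ p :=
          Nat.add_le_add (Nat.mul_le_mul_left _ h2) (by omega)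
      _ = (B * T + 2) ^ p * (B + 2) := by ring
      _ ≤ (B * T + 2) ^ p * (B * T + 2) := Nat.mul_le_mul_left _ (by omega)
      _ = (B * T + 2) ^ (p + 1) := (pow_succ _ _).symm

/-- `F(t, X)` has no multiple roots -/
def SepAt (F : ℤ[X][X]) (t : ℚ) : Prop :=
  (F.map ((aeval t : ℤ[X] →ₐ[ℤ] ℚ) : ℤ[X] →+* ℚ)).Separable

/-- `F` has no multiple roots as a polynomial in `X` over `ℚ(t)` -/
def Sep (F : ℤ[X][X]) : Prop := (F.map (algebraMap ℤ[X] (FractionRing ℤ[X]))).Separable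

/-- the zeros `n ≥ b (B T + 2)` of the solutions for `t` lie in classes modulo `M` of zeros -/
def ClsQ (d : ℕ) (F : ℤ[X][X]) (t : ℚ) (M : ℕ) (b : ℕ → ℕ) : Prop :=
  ∀ (z : ℕ → ℤ) (v : ℕ → ℚ), (∀ i < d, v i = z i) → Rec F t v → ∀ B : ℕ, Bound d B z →
    ∀ n, b (B * height t + 2) ≤ n → v n = 0 → ∀ k, v (n % M + k * M) = 0

/-- scaling of the roots by a nonzero constant -/
theorem sep_scale {p : ℚ[X]} (hp : p.Separable) {r : ℚ} (hr : r ≠ 0) :
    (p.scaleRoots r).Separable := by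
  have h1 : p.scaleRoots r = C (r ^ p.natDegree) * p.comp (C r⁻¹ * X) := by
    ext i
    rw [coeff_scaleRoots, coeff_C_mul, comp_C_mul_X_coeff]
    by_cases hi : i ≤ p.natDegree
    · have h2 : r ^ p.natDegree = r ^ (p.natDegree - i) * r ^ i := by
        rw [← pow_add, Nat.sub_add_cancel hi]
      rw [h2, inv_pow]
      field_simp
    · rw [coeff_eq_zero_of_natDegree_lt (not_le.1 hi)]
      simp
  have h2 : derivative (p.comp (C r⁻¹ * X)) = C r⁻¹ * (derivative p).comp (C r⁻¹ * X) := by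
    rw [derivative_comp]
    simp
  have h3 : IsCoprime (p.comp (C r⁻¹ * X)) ((derivative p).comp (C r⁻¹ * X)) := by
    have h5 : IsCoprime p (derivative p) := (separable_def p).1 hp
    have h4 := h5.map (compRingHom (C r⁻¹ * X))
    rwa [coe_compRingHom_apply, coe_compRingHom_apply] at h4
  obtain ⟨a, b, hab⟩ := h3
  have e1 : (C r⁻¹ : ℚ[X]) * C r = 1 := by
    rw [← C_mul, inv_mul_cancel₀ hr, C_1]
  have hn : r ^ p.natDegree ≠ 0 := pow_ne_zero _ hr
  have e2 : (C (r ^ p.natDegree)⁻¹ : ℚ[X]) * C (r ^ p.natDegree) = 1 := by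
    rw [← C_mul, inv_mul_cancel₀ hn, C_1]
  rw [h1, separable_def, derivative_C_mul, h2]
  refine ⟨a * C (r ^ p.natDegree)⁻¹, b * C r * C (r ^ p.natDegree)⁻¹, ?_⟩
  calc a * C (r ^ p.natDegree)⁻¹ * (C (r ^ p.natDegree) * p.comp (C r⁻¹ * X)) +
        b * C r * C (r ^ p.natDegree)⁻¹ *
          (C (r ^ p.natDegree) * (C r⁻¹ * (derivative p).comp (C r⁻¹ * X)))
      = (C (r ^ p.natDegree)⁻¹ * C (r ^ p.natDegree)) * (a * p.comp (C r⁻¹ * X)) +
        (C (r ^ p.natDegree)⁻¹ * C (r ^ p.natDegree)) * (C r⁻¹ * C r) *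
          (b * (derivative p).comp (C r⁻¹ * X)) := by ring
    _ = a * p.comp (C r⁻¹ * X) + b * (derivative p).comp (C r⁻¹ * X) := by
        rw [e1, e2, one_mul, one_mul, one_mul]
    _ = 1 := hab

/-- one member of the family -/
theorem member (hF : Fam d F) (t : ℚ) (ht : aeval t (F.coeff 0) ≠ 0) :
    ∃ M C : ℕ, 0 < M ∧ ClsQ d F t M (fun X => X ^ C) ∧
      (SepAt F t → ClsQ d F t M (fun X => C * (Nat.log 2 X + 1))) ∧
      ∃ A : List ℤ → Bool, Primrec A ∧ ∀ x, x.length = d → (A x = true ↔ ZeroQ F t x) := by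
  obtain ⟨s, hs⟩ := exists_wt hF
  obtain ⟨f, hf⟩ : ∃ f, f = Fm.hsp s F t.num (t.den : ℤ) := ⟨_, rfl⟩
  obtain ⟨h1, h2, h3⟩ := Fm.hHB1.1 ℤ s F t.num t.den hF.monic
  rw [← hf] at h1 h2 h3
  rw [hF.deg] at h2 h3
  have hd0 : (t.den : ℚ) ≠ 0 := by exact_mod_cast t.den_ne_zero
  have h0 : f.coeff 0 ≠ 0 := by
    rw [h3 0 (Nat.zero_le _), Nat.sub_zero]
    intro h
    have h4 := hev_eq (s * d) (F.coeff 0) (by
      have := hs 0
      rwa [hF.deg, Nat.sub_zero] at this) t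
    rw [h, Int.cast_zero] at h4
    exact mul_ne_zero (pow_ne_zero _ hd0) ht h4.symm
  have hsep : SepAt F t → (f.map (Int.castRingHom ℚ)).Separable := by
    intro h
    set FQ : ℚ[X][X] := F.map (mapRingHom (Int.castRingHom ℚ)) with hFQ
    have hFQm : FQ.Monic := hF.monic.map _
    have hinj : Function.Injective (mapRingHom (Int.castRingHom ℚ)) :=
      map_injective _ Int.cast_injective
    have hFQd : FQ.natDegree = F.natDegree := natDegree_map_eq_of_injective hinj F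
    have hFQw : Fm.Wt s FQ := by
      intro i
      rw [hFQ, coeff_map, coe_mapRingHom, hFQd]
      exact natDegree_map_le.trans (hs i)
    have h5 := Fm.hHB1.2.2.1 ℤ ℚ (Int.castRingHom ℚ) s F t.num t.den hF.monic
    have h6 := Fm.hHB1.2.1 ℚ s FQ (t.num : ℚ) (t.den : ℚ) hFQm hFQw hd0
    rw [Rat.num_div_den] at h6
    have h7 : f.map (Int.castRingHom ℚ) = (Fm.spc FQ t).scaleRoots ((t.den : ℚ) ^ s) := by
      rw [hf, h5, ← h6]
      simp [hFQ]
    rw [h7]
    refine sep_scale ?_ (pow_ne_zero _ hd0)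
    have h8 : Fm.spc FQ t = F.map ((aeval t : ℤ[X] →ₐ[ℤ] ℚ) : ℤ[X] →+* ℚ) := by
      unfold Fm.spc
      rw [hFQ, Polynomial.map_map]
      congr 1
      exact Polynomial.ringHom_ext (by simp) (by simp)
    rw [h8]
    exact h
  obtain ⟨M, C, hM, H, Hs, A, hA, hA2⟩ := fixedZ h1 h0
  refine ⟨M, (s * d + 1) * C, hM, ?_, ?_,
    fun x => A (sc s (x, (t.num, (t.den : ℤ)))), ?_, fun x hx => ?_⟩
  · intro z v hz hv B hB n hn hn0 k
    obtain ⟨u, hu, hui, huv⟩ := lift hF hs t z v hz hv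
    rw [← hf] at hu
    refine (zero_iff t v u huv _).1 (H u hu (B * height t ^ (s * d)) ?_ n ?_
      ((zero_iff t v u huv _).2 hn0) k)
    · rw [h2]
      exact init_bound t z u B hB hui
    · refine le_trans ?_ hn
      show (B * height t ^ (s * d) + 2) ^ C ≤ (B * height t + 2) ^ ((s * d + 1) * C)
      rw [pow_mul (B * height t + 2) (s * d + 1) C]
      exact Nat.pow_le_pow_left (bnd B (height t) (s * d) (height_pos t)) C
  · intro hst z v hz hv B hB n hn hn0 k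
    obtain ⟨u, hu, hui, huv⟩ := lift hF hs t z v hz hv
    rw [← hf] at hu
    refine (zero_iff t v u huv _).1 (Hs (hsep hst) u hu (B * height t ^ (s * d)) ?_ n ?_
      ((zero_iff t v u huv _).2 hn0) k)
    · rw [h2]
      exact init_bound t z u B hB hui
    · refine le_trans ?_ hn
      show C * (Nat.log 2 (B * height t ^ (s * d) + 2) + 1) ≤
        (s * d + 1) * C * (Nat.log 2 (B * height t + 2) + 1)
      have h9 := log_le _ _ (s * d + 1) (by omega) (bnd B (height t) (s * d) (height_pos t))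
        (by omega)
      calc C * (Nat.log 2 (B * height t ^ (s * d) + 2) + 1)
          ≤ C * ((s * d + 1) * (Nat.log 2 (B * height t + 2) + 1)) := Nat.mul_le_mul_left C h9
        _ = (s * d + 1) * C * (Nat.log 2 (B * height t + 2) + 1) := by ring
  · exact hA.comp ((primrec_sc s).comp (Primrec.pair Primrec.id (Primrec.const _)))
  · obtain ⟨v, hv, hvi⟩ := exists_sol hF t x
    obtain ⟨u, hu, hui, huv⟩ := lift hF hs t (fun i => x.getD i 0) v hvi hv
    rw [← hf] at hu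
    rw [zeroQ_iff hF t x v hv hvi, ← exists_congr fun n => zero_iff t v u huv n]
    refine hA2 _ (by rw [h2, ← hx]; simp [sc]) u hu fun i hi => ?_
    rw [h2] at hi
    rw [sc_getD x s _ _ i (by omega)]
    exact hui i hi

/-- polynomial bound of the values of a polynomial -/
theorem eval_le {k : ℕ} (P : MvPolynomial (Fin k) ℤ) : ∃ e : ℕ, ∀ X : ℕ, 2 ≤ X →
    ∀ x : Fin k → ℤ, (∀ j, (x j).natAbs ≤ X) → (MvPolynomial.eval x P).natAbs ≤ X ^ e := by
  induction P using MvPolynomial.induction_on with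
  | C a =>
    refine ⟨a.natAbs, fun X hX x _ => ?_⟩
    rw [MvPolynomial.eval_C]
    exact (Nat.lt_two_pow_self).le.trans (Nat.pow_le_pow_left hX _)
  | add p q hp hq =>
    obtain ⟨e₁, h₁⟩ := hp
    obtain ⟨e₂, h₂⟩ := hq
    refine ⟨e₁ + e₂ + 1, fun X hX x hx => ?_⟩
    rw [map_add]
    have h3 : X ^ e₁ ≤ X ^ (e₁ + e₂) := Nat.pow_le_pow_right (by omega) (by omega)
    have h4 : X ^ e₂ ≤ X ^ (e₁ + e₂) := Nat.pow_le_pow_right (by omega) (by omega)
    calc (MvPolynomial.eval x p + MvPolynomial.eval x q).natAbs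
        ≤ (MvPolynomial.eval x p).natAbs + (MvPolynomial.eval x q).natAbs := Int.natAbs_add_le _ _
      _ ≤ X ^ (e₁ + e₂) + X ^ (e₁ + e₂) :=
          Nat.add_le_add ((h₁ X hX x hx).trans h3) ((h₂ X hX x hx).trans h4)
      _ = X ^ (e₁ + e₂) * 2 := by ring
      _ ≤ X ^ (e₁ + e₂) * X := Nat.mul_le_mul_left _ hX
      _ = X ^ (e₁ + e₂ + 1) := (pow_succ _ _).symm
  | mul_X p i hp =>
    obtain ⟨e, h⟩ := hp
    refine ⟨e + 1, fun X hX x hx => ?_⟩
    rw [map_mul, MvPolynomial.eval_X, Int.natAbs_mul, pow_succ]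
    exact Nat.mul_le_mul (h X hX x hx) (hx i)

theorem eval_le_family {k : ℕ} (N m : ℕ) (W : ℕ → ℕ → MvPolynomial (Fin k) ℤ) :
    ∃ E : ℕ, ∀ X : ℕ, 2 ≤ X → ∀ x : Fin k → ℤ, (∀ j, (x j).natAbs ≤ X) →
      ∀ q < N, ∀ i < m, (MvPolynomial.eval x (W q i)).natAbs ≤ X ^ E := by
  choose e he using fun q i => eval_le (W q i)
  refine ⟨∑ q ∈ range N, ∑ i ∈ range m, e q i, fun X hX x hx q hq i hi => ?_⟩
  refine (he q i X hX x hx).trans (Nat.pow_le_pow_right (by omega) ?_)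
  have h1 : e q i ≤ ∑ i ∈ range m, e q i :=
    Finset.single_le_sum (f := fun i => e q i) (fun _ _ => Nat.zero_le _) (mem_range.2 hi)
  have h2 : ∑ i ∈ range m, e q i ≤ ∑ q ∈ range N, ∑ i ∈ range m, e q i :=
    Finset.single_le_sum (f := fun q => ∑ i ∈ range m, e q i) (fun _ _ => Nat.zero_le _)
      (mem_range.2 hq)
  exact h1.trans h2

theorem pt_le (t : ℚ) (z : ℕ → ℤ) (B : ℕ) (hB : 1 ≤ B) (hz : Bound d B z) (j : Fin (d + 2)) :
    (pt d t z j).natAbs ≤ B * height t + 2 := by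
  have hT := height_pos t
  have h1 : height t ≤ B * height t := Nat.le_mul_of_pos_left _ hB
  refine Fin.cases ?_ (fun j => ?_) j
  · have h2 : t.num.natAbs ≤ height t := le_max_left _ _
    show t.num.natAbs ≤ _
    omega
  · refine Fin.cases ?_ (fun j => ?_) j
    · have h2 : t.den ≤ height t := le_max_right _ _
      show ((t.den : ℤ)).natAbs ≤ _
      rw [Int.natAbs_natCast]
      omega
    · have h2 := hz j j.2
      have h3 : B ≤ B * height t := Nat.le_mul_of_pos_right _ hT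
      show (z j).natAbs ≤ _
      omega

/-- the solution with zero initial values -/
theorem zero_of_bound (hF : Fam d F) (t : ℚ) (z : ℕ → ℤ) (v : ℕ → ℚ) (hz : ∀ i < d, v i = z i)
    (hv : Rec F t v) (hB : Bound d 0 z) (n : ℕ) : v n = 0 := by
  refine rec_ext hF t v (fun _ => 0) hv (fun n => by simp) (fun i hi => ?_) n
  rw [hz i hi]
  have := hB i hi
  have h2 : z i = 0 := by omega
  rw [h2, Int.cast_zero]

theorem primrec_any {α : Type} [Primcodable α] (R : α → Bool × List (List ℤ)) (hR : Primrec R)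
    (D : List ℤ → Bool) (hD : Primrec D) :
    Primrec (fun a => (R a).1 || (R a).2.any D) := by
  have h1 : Primrec (fun a => (R a).2.findIdx D) :=
    Primrec.list_findIdx (f := fun a => (R a).2) (p := fun _ l => D l) (Primrec.snd.comp hR)
      (hD.comp Primrec.snd).to₂
  have h2 : Primrec (fun a => decide ((R a).2.findIdx D < (R a).2.length)) :=
    (Primrec.nat_lt.comp h1 (Primrec.list_length.comp (Primrec.snd.comp hR))).decide
  refine (Primrec.or.comp (Primrec.fst.comp hR) h2).of_eq fun a => ?_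
  congr 1
  rw [Bool.eq_iff_iff, decide_eq_true_iff, List.findIdx_lt_length, List.any_eq_true]

/-- the reduction to one recurrence, in the form of `FamilyReduction` -/
structure Rdc (d : ℕ) (F : ℤ[X][X]) (N T₁ c : ℕ) (f : ℤ[X])
    (W : ℕ → ℕ → MvPolynomial (Fin (d + 2)) ℤ) : Prop where
  pos : 1 ≤ N
  monic : f.Monic
  ne : f.coeff 0 ≠ 0
  red : ∀ t : ℚ, T₁ ≤ height t → ∀ (z : ℕ → ℤ) (v : ℕ → ℚ), (∀ i < d, v i = z i) → Rec F t v →
    ∀ q < N, ∃ w : ℕ → ℤ, RecZ f w ∧ (∀ i, w i = MvPolynomial.eval (pt d t z) (W q i)) ∧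
      (∀ n, w n = 0 → v (q + N * n) = 0) ∧
      ∀ B : ℕ, Bound d B z → ∀ n, (B * height t) ^ c < height t ^ n →
        v (q + N * n) = 0 → w n = 0
  dec : ∃ R : List ℤ × (ℤ × ℤ) → Bool × List (List ℤ), Primrec R ∧
    ∀ t : ℚ, T₁ ≤ height t → ∀ x : List ℤ, x.length = d →
      (∀ l ∈ (R (x, (t.num, (t.den : ℤ)))).2, l.length = f.natDegree) ∧
      (ZeroQ F t x ↔ (R (x, (t.num, (t.den : ℤ)))).1 = true ∨
        ∃ l ∈ (R (x, (t.num, (t.den : ℤ)))).2, ZeroZ f l)

/-- the passage from `f` to the members of large height -/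
theorem pass (hF : Fam d F) {N T₁ c : ℕ} {f : ℤ[X]} {W : ℕ → ℕ → MvPolynomial (Fin (d + 2)) ℤ}
    (h : Rdc d F N T₁ c f W) {M : ℕ} {b : ℕ → ℕ} (hb : Cls f M b) {E : ℕ}
    (hE : ∀ X : ℕ, 2 ≤ X → ∀ x : Fin (d + 2) → ℤ, (∀ j, (x j).natAbs ≤ X) →
      ∀ q < N, ∀ i < f.natDegree, (MvPolynomial.eval x (W q i)).natAbs ≤ X ^ E)
    (t : ℚ) (ht : T₁ + 2 ≤ height t) (b' : ℕ → ℕ)
    (hb' : ∀ X n : ℕ, 2 ≤ X → b' X ≤ n → X ^ c < 2 ^ (n / N) ∧ b (X ^ E) ≤ n / N) :
    ClsQ d F t (N * M) b' := by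
  intro z v hz hv B hB n hn hn0 k
  have hN := h.pos
  rcases Nat.eq_zero_or_pos B with hB0 | hB0
  · subst hB0
    exact zero_of_bound hF t z v hz hv hB _
  obtain ⟨X, hX⟩ : ∃ X, X = B * height t + 2 := ⟨_, rfl⟩
  have hX2 : 2 ≤ X := by omega
  rw [← hX] at hn
  obtain ⟨h1, h2⟩ := hb' X n hX2 hn
  obtain ⟨w, hw, hwW, hw1, hw2⟩ := h.red t (by omega) z v hz hv (n % N) (Nat.mod_lt _ hN)
  have hdiv : n % N + N * (n / N) = n := Nat.mod_add_div n N
  have hm1 : (B * height t) ^ c < height t ^ (n / N) := by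
    calc (B * height t) ^ c ≤ X ^ c := Nat.pow_le_pow_left (by omega) c
      _ < 2 ^ (n / N) := h1
      _ ≤ height t ^ (n / N) := Nat.pow_le_pow_left (by omega) _
  have hw0 : w (n / N) = 0 := hw2 B hB (n / N) hm1 (by rw [hdiv]; exact hn0)
  have hbd : ∀ i < f.natDegree, (w i).natAbs ≤ X ^ E := by
    intro i hi
    rw [hwW i]
    refine hE X hX2 _ (fun j => ?_) (n % N) (Nat.mod_lt _ hN) i hi
    rw [hX]
    exact pt_le t z B hB0 hB j
  have h8 := hw1 _ (hb w hw (X ^ E) hbd (n / N) h2 hw0 k)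
  have h9 : n % (N * M) + k * (N * M) = n % N + N * (n / N % M + k * M) := by
    rw [Nat.mod_mul]
    ring
  rw [h9]
  exact h8

theorem pow_E (X E : ℕ) (hX : 2 ≤ X) : X ^ E + 2 ≤ X ^ (E + 2) := by
  have h6 : 1 ≤ X ^ E := Nat.one_le_pow _ _ (by omega)
  have h7 : X ^ (E + 2) = X ^ E * (X * X) := by ring
  have h8 : 4 ≤ X * X := Nat.mul_le_mul hX hX
  have h9 : X ^ E * 4 ≤ X ^ E * (X * X) := Nat.mul_le_mul_left _ h8
  rw [h7]
  omega

/-- the members of large height -/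
theorem large (hF : Fam d F) {N T₁ c : ℕ} {f : ℤ[X]} {W : ℕ → ℕ → MvPolynomial (Fin (d + 2)) ℤ}
    (h : Rdc d F N T₁ c f W) : ∃ M C : ℕ, 0 < M ∧
      (∀ t : ℚ, T₁ + 2 ≤ height t → ClsQ d F t M (fun X => X ^ C) ∧
        ((f.map (Int.castRingHom ℚ)).Separable →
          ClsQ d F t M (fun X => C * (Nat.log 2 X + 1)))) ∧
      ∃ A : List ℤ × (ℤ × ℤ) → Bool, Primrec A ∧ ∀ t : ℚ, T₁ + 2 ≤ height t →
        ∀ x : List ℤ, x.length = d → (A (x, (t.num, (t.den : ℤ))) = true ↔ ZeroQ F t x) := by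
  obtain ⟨M, C, hM, H, Hs, D, hD, hD2⟩ := fixedZ h.monic h.ne
  obtain ⟨E, hE⟩ := eval_le_family N f.natDegree W
  have hN := h.pos
  refine ⟨N * M, N * (c + (E + 2) * C + 1) + N, Nat.mul_pos hN hM, fun t ht => ⟨?_, fun hs => ?_⟩,
    ?_⟩
  · refine pass hF h H hE t ht _ fun X n hX hn => ?_
    have hn' : X ^ (N * (c + (E + 2) * C + 1) + N) ≤ n := hn
    have hm : X ^ (c + (E + 2) * C + 1) ≤ n / N := by
      rw [Nat.le_div_iff_mul_le hN]
      refine le_trans ?_ hn'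
      rw [pow_add X (N * (c + (E + 2) * C + 1)) N]
      refine Nat.mul_le_mul ?_ ((Nat.lt_two_pow_self).le.trans (Nat.pow_le_pow_left hX N))
      exact Nat.pow_le_pow_right (by omega) (Nat.le_mul_of_pos_left _ hN)
    constructor
    · calc X ^ c ≤ X ^ (c + (E + 2) * C + 1) := Nat.pow_le_pow_right (by omega) (by omega)
        _ ≤ n / N := hm
        _ < 2 ^ (n / N) := Nat.lt_two_pow_self
    · calc (X ^ E + 2) ^ C ≤ (X ^ (E + 2)) ^ C := Nat.pow_le_pow_left (pow_E X E hX) C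
        _ = X ^ ((E + 2) * C) := (pow_mul _ _ _).symm
        _ ≤ X ^ (c + (E + 2) * C + 1) := Nat.pow_le_pow_right (by omega) (by omega)
        _ ≤ n / N := hm
  · refine pass hF h (Hs hs) hE t ht _ fun X n hX hn => ?_
    have hn' : (N * (c + (E + 2) * C + 1) + N) * (Nat.log 2 X + 1) ≤ n := hn
    have hm : (c + (E + 2) * C + 1) * (Nat.log 2 X + 1) ≤ n / N := by
      rw [Nat.le_div_iff_mul_le hN]
      refine le_trans ?_ hn'
      calc (c + (E + 2) * C + 1) * (Nat.log 2 X + 1) * N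
          = N * (c + (E + 2) * C + 1) * (Nat.log 2 X + 1) := by ring
        _ ≤ (N * (c + (E + 2) * C + 1) + N) * (Nat.log 2 X + 1) :=
            Nat.mul_le_mul_right _ (Nat.le_add_right _ _)
    constructor
    · have h1 : X < 2 ^ (Nat.log 2 X + 1) := Nat.lt_pow_succ_log_self (by norm_num) _
      calc X ^ c ≤ (2 ^ (Nat.log 2 X + 1)) ^ c := Nat.pow_le_pow_left h1.le c
        _ = 2 ^ (c * (Nat.log 2 X + 1)) := by rw [← pow_mul, mul_comm c]
        _ < 2 ^ ((c + (E + 2) * C + 1) * (Nat.log 2 X + 1)) := by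
            refine Nat.pow_lt_pow_right (by norm_num) ?_
            exact Nat.mul_lt_mul_of_pos_right (by omega) (by omega)
        _ ≤ 2 ^ (n / N) := Nat.pow_le_pow_right (by norm_num) hm
    · refine le_trans ?_ hm
      have h2 := log_le (X ^ E + 2) X (E + 2) (by omega) (pow_E X E hX) (by omega)
      calc C * (Nat.log 2 (X ^ E + 2) + 1) ≤ C * ((E + 2) * (Nat.log 2 X + 1)) :=
            Nat.mul_le_mul_left C h2
        _ = ((E + 2) * C) * (Nat.log 2 X + 1) := by ring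
        _ ≤ (c + (E + 2) * C + 1) * (Nat.log 2 X + 1) := Nat.mul_le_mul_right _ (by omega)
  · obtain ⟨R, hR, H2⟩ := h.dec
    refine ⟨fun a => (R a).1 || (R a).2.any D, primrec_any R hR D hD, fun t ht x hx => ?_⟩
    obtain ⟨h3, h4⟩ := H2 t (by omega) x hx
    rw [h4, Bool.or_eq_true, List.any_eq_true]
    refine or_congr Iff.rfl (exists_congr fun l => and_congr_right fun hl => ?_)
    constructor
    · intro h5
      obtain ⟨w, hw, hwi⟩ : ∃ w : ℕ → ℤ, RecZ f w ∧ ∀ i < f.natDegree, w i = l.getD i 0 :=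
        ⟨fun n => ∑ c ∈ range f.natDegree, Pd.cf f n c * l.getD c 0,
          Pd.sol_of_init h.monic (fun c => l.getD c 0),
          fun i hi => Pd.init_of_init h.monic (fun c => l.getD c 0) hi⟩
      obtain ⟨n, hn⟩ := (hD2 l (h3 l hl) w hw hwi).1 h5
      exact ⟨w, hw, hwi, n, hn⟩
    · rintro ⟨w, hw, hwi, n, hn⟩
      exact (hD2 l (h3 l hl) w hw hwi).2 ⟨n, hn⟩

/-- a larger modulus -/
theorem class_mono {v : ℕ → ℚ} {n M N : ℕ} (hMN : M ∣ N)
    (h : ∀ k, v (n % M + k * M) = 0) (k : ℕ) : v (n % N + k * N) = 0 := by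
  have h1 : (n % N + k * N) % M = n % M := by
    obtain ⟨a, rfl⟩ := hMN
    rw [show k * (M * a) = M * (k * a) by ring, Nat.add_mul_mod_self_left, Nat.mod_mul_right_mod]
  have h2 : n % N + k * N = n % M + (n % N + k * N) / M * M := by
    rw [← h1, mul_comm _ M, Nat.mod_add_div]
  rw [h2]
  exact h _

/-- a specialisation without multiple roots -/
theorem sep_of_sepAt (hF : F.Monic) (t : ℚ) (h : SepAt F t) : Sep F := by
  unfold Sep
  rw [PerfectField.separable_iff_squarefree]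
  intro a ha
  have hinj : Function.Injective (algebraMap ℤ[X] (FractionRing ℤ[X])) :=
    IsFractionRing.injective ℤ[X] (FractionRing ℤ[X])
  have hF0 : F.map (algebraMap ℤ[X] (FractionRing ℤ[X])) ≠ 0 := (hF.map _).ne_zero
  have ha0 : a ≠ 0 := by
    rintro rfl
    rw [zero_mul] at ha
    exact hF0 (zero_dvd_iff.1 ha)
  obtain ⟨g, hg⟩ := IsIntegrallyClosed.eq_map_mul_C_of_dvd (FractionRing ℤ[X]) hF
    (dvd_of_mul_left_dvd ha)
  have hlc : a.leadingCoeff ≠ 0 := leadingCoeff_ne_zero.2 ha0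
  have hgm : (g.map (algebraMap ℤ[X] (FractionRing ℤ[X]))).Monic := by
    have h1 := congrArg leadingCoeff hg
    rw [leadingCoeff_mul, leadingCoeff_C] at h1
    exact mul_right_cancel₀ hlc (by rw [h1, one_mul])
  have hgm' : g.Monic := hinj.monic_map_iff.2 hgm
  have hgg : g * g ∣ F := by
    refine (map_dvd_map _ hinj (hgm'.mul hgm')).1 ?_
    rw [Polynomial.map_mul]
    refine (Dvd.intro (C a.leadingCoeff * C a.leadingCoeff) ?_).trans ha
    calc g.map (algebraMap ℤ[X] (FractionRing ℤ[X])) * g.map (algebraMap ℤ[X] (FractionRing ℤ[X])) *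
          (C a.leadingCoeff * C a.leadingCoeff)
        = (g.map (algebraMap ℤ[X] (FractionRing ℤ[X])) * C a.leadingCoeff) *
          (g.map (algebraMap ℤ[X] (FractionRing ℤ[X])) * C a.leadingCoeff) := by ring
      _ = a * a := by rw [hg]
  have h2 : (g.map ((aeval t : ℤ[X] →ₐ[ℤ] ℚ) : ℤ[X] →+* ℚ)) *
      (g.map ((aeval t : ℤ[X] →ₐ[ℤ] ℚ) : ℤ[X] →+* ℚ)) ∣
      F.map ((aeval t : ℤ[X] →ₐ[ℤ] ℚ) : ℤ[X] →+* ℚ) := by
    rw [← Polynomial.map_mul]
    exact Polynomial.map_dvd _ hgg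
  have h3 := h.squarefree _ h2
  have h4 : g.natDegree = 0 := by
    have h5 := natDegree_eq_zero_of_isUnit h3
    rwa [hgm'.natDegree_map] at h5
  have h5 : g = 1 := by
    rw [eq_C_of_natDegree_eq_zero h4]
    have h6 := hgm'.coeff_natDegree
    rw [h4] at h6
    rw [h6, map_one]
  rw [← hg, h5, Polynomial.map_one, one_mul]
  exact isUnit_C.2 (IsUnit.mk0 _ hlc)

/-- **All members of the family.** -/
theorem zeros (hF : Fam d F) {N T₁ c : ℕ} {f : ℤ[X]} {W : ℕ → ℕ → MvPolynomial (Fin (d + 2)) ℤ}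
    (h : Rdc d F N T₁ c f W) : ∃ M C : ℕ, 0 < M ∧
      ∀ t : ℚ, aeval t (F.coeff 0) ≠ 0 → ClsQ d F t M (fun X => X ^ C) ∧
        ((Sep F → (f.map (Int.castRingHom ℚ)).Separable) → SepAt F t →
          ClsQ d F t M (fun X => C * (Nat.log 2 X + 1))) := by
  classical
  obtain ⟨M, C, hM, H, -⟩ := large hF h
  have hmem : ∀ t : ℚ, ∃ M C : ℕ, 0 < M ∧ (aeval t (F.coeff 0) ≠ 0 →
      ClsQ d F t M (fun X => X ^ C) ∧
      (SepAt F t → ClsQ d F t M (fun X => C * (Nat.log 2 X + 1)))) := by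
    intro t
    by_cases ht : aeval t (F.coeff 0) = 0
    · exact ⟨1, 0, one_pos, fun h => absurd ht h⟩
    · obtain ⟨M, C, hM, h1, h2, -⟩ := member hF t ht
      exact ⟨M, C, hM, fun _ => ⟨h1, h2⟩⟩
  choose M' C' hM' H' using hmem
  set S := (finite_height (T₁ + 2)).toFinset with hS
  have mono : ∀ (t : ℚ) (M₁ M₂ C₁ C₂ : ℕ), M₁ ∣ M₂ → C₁ ≤ C₂ →
      (ClsQ d F t M₁ (fun X => X ^ C₁) → ClsQ d F t M₂ (fun X => X ^ C₂)) ∧
      (ClsQ d F t M₁ (fun X => C₁ * (Nat.log 2 X + 1)) →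
        ClsQ d F t M₂ (fun X => C₂ * (Nat.log 2 X + 1))) := by
    intro t M₁ M₂ C₁ C₂ hd hC
    constructor
    · intro h1 z v hz hv B hB n hn hn0 k
      refine class_mono hd (h1 z v hz hv B hB n (le_trans ?_ hn) hn0) k
      exact Nat.pow_le_pow_right (by omega) hC
    · intro h1 z v hz hv B hB n hn hn0 k
      refine class_mono hd (h1 z v hz hv B hB n (le_trans ?_ hn) hn0) k
      exact Nat.mul_le_mul_right _ hC
  refine ⟨M * ∏ t ∈ S, M' t, C + ∑ t ∈ S, C' t,
    Nat.mul_pos hM (Finset.prod_pos fun t _ => hM' t), fun t ht => ?_⟩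
  by_cases hT : T₁ + 2 ≤ height t
  · have h1 := mono t M (M * ∏ t ∈ S, M' t) C (C + ∑ t ∈ S, C' t) (Dvd.intro _ rfl)
      (Nat.le_add_right _ _)
    refine ⟨h1.1 (H t hT).1, fun hs hst => h1.2 ((H t hT).2 (hs ?_))⟩
    exact sep_of_sepAt hF.monic t hst
  · have htS : t ∈ S := by
      rw [hS, Set.Finite.mem_toFinset]
      exact not_le.1 hT
    have h1 := mono t (M' t) (M * ∏ t ∈ S, M' t) (C' t) (C + ∑ t ∈ S, C' t)
      ((Finset.dvd_prod_of_mem M' htS).mul_left M)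
      ((Finset.single_le_sum (f := C') (fun _ _ => Nat.zero_le _) htS).trans
        (Nat.le_add_left _ _))
    exact ⟨h1.1 (H' t ht).1, fun _ hst => h1.2 ((H' t ht).2 hst)⟩

/-- **The decision for all members of the family.** -/
theorem decision (hF : Fam d F) {N T₁ c : ℕ} {f : ℤ[X]}
    {W : ℕ → ℕ → MvPolynomial (Fin (d + 2)) ℤ} (h : Rdc d F N T₁ c f W) :
    ∃ A : List ℤ × (ℤ × ℤ) → Bool, Primrec A ∧
    ∀ t : ℚ, aeval t (F.coeff 0) ≠ 0 → ∀ x : List ℤ, x.length = d →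
      (A (x, (t.num, (t.den : ℤ))) = true ↔ ZeroQ F t x) := by
  classical
  obtain ⟨-, -, -, -, A₀, hA₀, h₀⟩ := large hF h
  clear h
  obtain ⟨T₀, hT₀⟩ : ∃ T₀, T₀ = T₁ + 2 := ⟨_, rfl⟩
  rw [← hT₀] at h₀
  have key : ∀ L : List ℚ, (∀ t ∈ L, aeval t (F.coeff 0) ≠ 0) →
      ∃ A : List ℤ × (ℤ × ℤ) → Bool, Primrec A ∧
        ∀ t : ℚ, (t ∈ L ∨ T₀ ≤ height t) → ∀ x : List ℤ, x.length = d →
          (A (x, (t.num, (t.den : ℤ))) = true ↔ ZeroQ F t x) := by
    intro L
    induction L with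
    | nil =>
      intro _
      exact ⟨A₀, hA₀, fun t ht => h₀ t (by simpa using ht)⟩
    | cons t₀ L ih =>
      intro hL
      obtain ⟨A, hA, h⟩ := ih fun t ht => hL t (List.mem_cons_of_mem _ ht)
      obtain ⟨-, -, -, -, -, D, hD, hDt⟩ := member hF t₀ (hL t₀ List.mem_cons_self)
      refine ⟨fun w => bif decide (w.2 = (t₀.num, (t₀.den : ℤ))) then D w.1 else A w, ?_, ?_⟩
      · refine Primrec.cond ?_ (hD.comp Primrec.fst) hA
        exact (Primrec.eq.comp Primrec.snd (Primrec.const (t₀.num, (t₀.den : ℤ)))).decide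
      · intro t ht x hx
        show (bif decide ((t.num, (t.den : ℤ)) = (t₀.num, (t₀.den : ℤ))) then D x
          else A (x, (t.num, (t.den : ℤ)))) = true ↔ _
        by_cases hc : t = t₀
        · subst hc
          rw [decide_eq_true rfl, cond_true]
          exact hDt x hx
        · have hne : ¬ ((t.num, (t.den : ℤ)) = (t₀.num, (t₀.den : ℤ))) := by
            intro he
            apply hc
            rw [Prod.mk.injEq] at he
            exact Rat.ext he.1 (by exact_mod_cast he.2)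
          rw [decide_eq_false hne, cond_false]
          refine h t ?_ x hx
          rcases ht with ht | ht
          · rcases List.mem_cons.1 ht with ht | ht
            · exact absurd ht hc
            · exact Or.inl ht
          · exact Or.inr ht
  obtain ⟨A, hA, h⟩ := key
    (((finite_height T₀).toFinset.filter fun t => aeval t (F.coeff 0) ≠ 0).toList) (by
      intro t ht
      rw [Finset.mem_toList, Finset.mem_filter] at ht
      exact ht.2)
  refine ⟨A, hA, fun t ht0 x hx => h t ?_ x hx⟩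
  by_cases ht : T₀ ≤ height t
  · exact Or.inr ht
  · left
    rw [Finset.mem_toList, Finset.mem_filter, Set.Finite.mem_toFinset]
    exact ⟨not_le.1 ht, ht0⟩

/-- the reduction of `FamilyReduction` -/
theorem exists_rdc (hF : Fam d F) : ∃ (N T₁ c : ℕ) (f : ℤ[X])
    (W : ℕ → ℕ → MvPolynomial (Fin (d + 2)) ℤ), Rdc d F N T₁ c f W := by
  obtain ⟨N, T₁, c, f, W, hN, hf, hf0, H1, H2, -⟩ := main d F hF
  exact ⟨N, T₁, c, f, W, hN, hf, hf0, H1, H2⟩

/-- the reduction of `FamilyReduction` from the reduction for integer sequences -/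
theorem rdc_of_isRed (hF : Fam d F) (hs : Fm.Wt s F) {N T₀ c : ℕ} {f : ℤ[X]}
    {W : ℕ → ℕ → MvPolynomial (Fin (d + 2)) ℤ} (hR : Fm.IsRed F s d N T₀ c f W) :
    ∃ (T₁ c₁ : ℕ) (W' : ℕ → ℕ → MvPolynomial (Fin (d + 2)) ℤ), Rdc d F N T₁ c₁ f W' := by
  obtain ⟨T₁, b, hb, hT₁⟩ := Fm.prRHP Fm.prDEC Fm.hHB1 F s d hF.monic hF.deg hF.pos hF.ne hs N T₀ c
    f W hR
  obtain ⟨W', hW'⟩ : ∃ W' : ℕ → ℕ → MvPolynomial (Fin (d + 2)) ℤ,
      W' = fun q i => MvPolynomial.bind₁ (sub d s) (W q i) := ⟨_, rfl⟩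
  refine ⟨T₀ + T₁, c * (s * d + 1), W', hR.pos, hR.monic, hR.ne, ?_, ?_⟩
  · intro t ht z v hz hv q hq
    obtain ⟨u, hu, hui, huv⟩ := lift hF hs t z v hz hv
    obtain ⟨w, hw, hwW, hw1, hw2⟩ := hR.red t.num t.den (coprime t)
      (by rw [mx_eq]; omega) u hu q hq
    refine ⟨w, hw, fun i => ?_, fun n hn => (zero_iff t v u huv _).1 (hw1 n hn),
      fun B hB n hn hn0 => ?_⟩
    · rw [hwW i, hW']
      exact (eval_sub t z u hui _).symm
    · refine hw2 (B * height t ^ (s * d)) (init_bound t z u B hB hui) n ?_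
        ((zero_iff t v u huv _).2 hn0)
      rw [mx_eq]
      exact lt_of_le_of_lt (bound_pow B (height t) c (s * d)) hn
  · refine ⟨fun w => (b (sc s w, w.2), (List.range N).map fun q => Fm.RRHC.vl W' f.natDegree q w),
      ?_, ?_⟩
    · exact (hb.comp ((primrec_sc s).pair Primrec.snd)).pair
        (primrec_lists _ (fun q => Fm.RRHC.primrec_vl Fm.rRPM W' _ q) N)
    · intro t ht x hx
      refine ⟨?_, ?_⟩
      · intro l hl
        obtain ⟨q, _, rfl⟩ := List.mem_map.1 hl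
        simp [Fm.RRHC.vl]
      · obtain ⟨v, hv, hvi⟩ := exists_sol hF t x
        obtain ⟨u, hu, hui, huv⟩ := lift hF hs t (fun i => x.getD i 0) v hvi hv
        have h1 := hT₁ t.num t.den (coprime t) (by rw [mx_eq]; omega) (by rw [mx_eq]; omega)
          (sc s (x, (t.num, (t.den : ℤ)))) u (by simpa [sc] using hx)
          (fun i hi' => by rw [sc_getD x s _ _ i (by omega)]; exact hui i hi') hu
        rw [zeroQ_iff hF t x v hv hvi, ← exists_congr fun n => zero_iff t v u huv n, h1]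
        refine or_congr Iff.rfl ?_
        have hl : ∀ q i, i < f.natDegree →
            (Fm.RRHC.vl W' f.natDegree q (x, (t.num, (t.den : ℤ)))).getD i 0 =
            MvPolynomial.eval (Fin.cons t.num (Fin.cons (t.den : ℤ) fun i : Fin d => u i))
              (W q i) := by
          intro q i hi
          rw [List.getD_eq_getElem _ _ (by simpa [Fm.RRHC.vl] using hi)]
          simp only [Fm.RRHC.vl, List.getElem_map, List.getElem_range]
          rw [← eval_sub t (fun i => x.getD i 0) u hui, pt_eq, hW']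
        constructor
        · rintro ⟨q, hq, w, hw, hwW, n, hn⟩
          refine ⟨_, List.mem_map.2 ⟨q, List.mem_range.2 hq, rfl⟩, w, hw, fun i hi => ?_, n, hn⟩
          rw [hl q i hi, hwW i]
        · rintro ⟨l, hl', hz⟩
          obtain ⟨q, hq, rfl⟩ := List.mem_map.1 hl'
          rw [List.mem_range] at hq
          obtain ⟨w, hw, hwW, _, _⟩ := hR.red t.num t.den (coprime t)
            (by rw [mx_eq]; omega) u hu q hq
          refine ⟨q, hq, w, hw, hwW, ?_⟩
          exact (zeroZ_iff hR.monic _ w hw (fun i hi => by rw [hl q i hi, hwW i])).1 hz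

end members

/-- everything for one family, from the reduction -/
theorem final_of {d : ℕ} {F : ℤ[X][X]} (hF : Fam d F) {N T₁ c : ℕ} {f : ℤ[X]}
    {W : ℕ → ℕ → MvPolynomial (Fin (d + 2)) ℤ} (h : Rdc d F N T₁ c f W) :
    (∃ M C : ℕ, 1 ≤ M ∧ ∀ t : ℚ, aeval t (F.coeff 0) ≠ 0 →
      ∀ (z : ℕ → ℤ) (v : ℕ → ℚ), (∀ i < d, v i = z i) → Rec F t v → ∀ B : ℕ, Bound d B z →
        (∀ n, (B * height t + 2) ^ C ≤ n → v n = 0 → ∀ k, v (n % M + k * M) = 0) ∧
        ((Sep F → (f.map (Int.castRingHom ℚ)).Separable) → SepAt F t →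
          ∀ n, C * (Nat.log 2 (B * height t + 2) + 1) ≤ n → v n = 0 →
            ∀ k, v (n % M + k * M) = 0)) ∧
    ∃ A : List ℤ × (ℤ × ℤ) → Bool, Primrec A ∧
      ∀ t : ℚ, aeval t (F.coeff 0) ≠ 0 → ∀ x : List ℤ, x.length = d →
        (A (x, (t.num, (t.den : ℤ))) = true ↔ ZeroQ F t x) := by
  obtain ⟨M, C, hM, H⟩ := zeros hF h
  refine ⟨⟨M, C, hM, fun t ht z v hz hv B hB => ⟨?_, fun hs hst => ?_⟩⟩, decision hF h⟩
  · exact (H t ht).1 z v hz hv B hB
  · exact (H t ht).2 hs hst z v hz hv B hB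

/-- the base version: no condition on the roots -/
theorem base (d : ℕ) (F : ℤ[X][X]) (hF : Fam d F) :
    (∃ M C : ℕ, 1 ≤ M ∧ ∀ t : ℚ, aeval t (F.coeff 0) ≠ 0 →
      ∀ (z : ℕ → ℤ) (v : ℕ → ℚ), (∀ i < d, v i = z i) → Rec F t v → ∀ B : ℕ, Bound d B z →
        ∀ n, (B * height t + 2) ^ C ≤ n → v n = 0 → ∀ k, v (n % M + k * M) = 0) ∧
    (∃ A : List ℤ × (ℤ × ℤ) → Bool, Primrec A ∧
      ∀ t : ℚ, aeval t (F.coeff 0) ≠ 0 → ∀ x : List ℤ, x.length = d →
        (A (x, (t.num, (t.den : ℤ))) = true ↔ ZeroQ F t x)) ∧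
    ∃ (N T₀ c : ℕ) (f : ℤ[X]) (W : ℕ → ℕ → MvPolynomial (Fin (d + 2)) ℤ),
      1 ≤ N ∧ f.Monic ∧ f.coeff 0 ≠ 0 ∧
      ∀ t : ℚ, T₀ ≤ height t → ∀ (z : ℕ → ℤ) (v : ℕ → ℚ), (∀ i < d, v i = z i) → Rec F t v →
        ∀ q < N, ∃ w : ℕ → ℤ, RecZ f w ∧ (∀ i, w i = MvPolynomial.eval (pt d t z) (W q i)) ∧
          (∀ n, w n = 0 → v (q + N * n) = 0) ∧
          ∀ B : ℕ, Bound d B z → ∀ n, (B * height t) ^ c < height t ^ n →
            v (q + N * n) = 0 → w n = 0 := by
  obtain ⟨N, T₁, c, f, W, h⟩ := exists_rdc hF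
  obtain ⟨⟨M, C, hM, H⟩, hA⟩ := final_of hF h
  exact ⟨⟨M, C, hM, fun t ht z v hz hv B hB => (H t ht z v hz hv B hB).1⟩, hA,
    N, T₁, c, f, W, h.pos, h.monic, h.ne, h.red⟩

/-- the full version: a logarithmic bound for the members without multiple roots -/
theorem final (hS : Fm.StSHN) (d : ℕ) (F : ℤ[X][X]) (hF : Fam d F) :
    (∃ M C : ℕ, 1 ≤ M ∧ ∀ t : ℚ, aeval t (F.coeff 0) ≠ 0 →
      ∀ (z : ℕ → ℤ) (v : ℕ → ℚ), (∀ i < d, v i = z i) → Rec F t v → ∀ B : ℕ, Bound d B z →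
        (∀ n, (B * height t + 2) ^ C ≤ n → v n = 0 → ∀ k, v (n % M + k * M) = 0) ∧
        (SepAt F t → ∀ n, C * (Nat.log 2 (B * height t + 2) + 1) ≤ n → v n = 0 →
            ∀ k, v (n % M + k * M) = 0)) ∧
    (∃ A : List ℤ × (ℤ × ℤ) → Bool, Primrec A ∧
      ∀ t : ℚ, aeval t (F.coeff 0) ≠ 0 → ∀ x : List ℤ, x.length = d →
        (A (x, (t.num, (t.den : ℤ))) = true ↔ ZeroQ F t x)) ∧
    ∃ (N T₀ c : ℕ) (f : ℤ[X]) (W : ℕ → ℕ → MvPolynomial (Fin (d + 2)) ℤ),
      1 ≤ N ∧ f.Monic ∧ f.coeff 0 ≠ 0 ∧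
      ∀ t : ℚ, T₀ ≤ height t → ∀ (z : ℕ → ℤ) (v : ℕ → ℚ), (∀ i < d, v i = z i) → Rec F t v →
        ∀ q < N, ∃ w : ℕ → ℤ, RecZ f w ∧ (∀ i, w i = MvPolynomial.eval (pt d t z) (W q i)) ∧
          (∀ n, w n = 0 → v (q + N * n) = 0) ∧
          ∀ B : ℕ, Bound d B z → ∀ n, (B * height t) ^ c < height t ^ n →
            v (q + N * n) = 0 → w n = 0 := by
  obtain ⟨s, hs⟩ := exists_wt hF
  obtain ⟨N, T₀, c, f, W, hR, hsep⟩ := hS F s d hF.monic hF.deg hF.pos hF.ne hs
  obtain ⟨T₁, c₁, W', h⟩ := rdc_of_isRed hF hs hR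
  obtain ⟨⟨M, C, hM, H⟩, hA⟩ := final_of hF h
  exact ⟨⟨M, C, hM, fun t ht z v hz hv B hB => ⟨(H t ht z v hz hv B hB).1,
    (H t ht z v hz hv B hB).2 hsep⟩⟩, hA, N, T₁, c₁, f, W', h.pos, h.monic, h.ne, h.red⟩

end Pool.Agent.Work.MP_8d13b5_lc.Fg.AllFamilies
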