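import Pool.Agent.Work.MP_8d13b5_lc.Fg.AllFamilies

set_option autoImplicit false

namespace Pool.Agent.Results.MP_8d13b5_lc.AllFamilies

open Polynomial Finset

/-- The families: `F = X ^ d + F_(d-1)(t) X ^ (d-1) + ... + F_0(t)`, `d ≥ 1`, is a polynomial in `X` whose
coefficients `F_i = F.coeff i` are arbitrary integer polynomials in the parameter `t`, `F_0 ≠ 0`. -/
structure Fam (d : ℕ) (F : ℤ[X][X]) : Prop where
  monic : F.Monic
  deg : F.natDegree = d
  pos : 1 ≤ d
  ne : F.coeff 0 ≠ 0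

/-- the height of a rational number: the larger of the numerator and the denominator -/
def height (t : ℚ) : ℕ := max t.num.natAbs t.den

/-- `v` satisfies the recurrence with the characteristic polynomial `F(t, X)`:
`v_(n+d) + F_(d-1)(t) v_(n+d-1) + ... + F_0(t) v_n = 0` -/
def Rec (F : ℤ[X][X]) (t : ℚ) (v : ℕ → ℚ) : Prop :=
  ∀ n, ∑ i ∈ range (F.natDegree + 1), aeval t (F.coeff i) * v (n + i) = 0

/-- `w` satisfies the recurrence with the characteristic polynomial `f` over the integers -/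
def RecZ (f : ℤ[X]) (w : ℕ → ℤ) : Prop :=
  ∀ n, ∑ i ∈ range (f.natDegree + 1), f.coeff i * w (n + i) = 0

/-- `z_0, ..., z_(d-1)` are at most `B` in absolute value -/
def Bound (d B : ℕ) (z : ℕ → ℤ) : Prop := ∀ i < d, (z i).natAbs ≤ B

/-- the polynomial `F(t, X)` has no multiple roots -/
def Simple (F : ℤ[X][X]) (t : ℚ) : Prop :=
  (F.map ((aeval t : ℤ[X] →ₐ[ℤ] ℚ) : ℤ[X] →+* ℚ)).Separable

/-- the point with the coordinates `num t, den t, z_0, ..., z_(d-1)` -/
def pt (d : ℕ) (t : ℚ) (z : ℕ → ℤ) : Fin (d + 2) → ℤ :=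
  Fin.cons t.num (Fin.cons (t.den : ℤ) fun i : Fin d => z i)

/-- **The Skolem Problem is decidable on every one-parameter family of linear recurrences.** Let
`F(t, X)` be an arbitrary family; `T` is the height of the rational number `t`, and `F_0(t) ≠ 0`.
(1) There are `M ≥ 1` and `C` such that for all `t` and all solutions `v` of the recurrence of `F(t, X)`
with integer initial values of absolute value at most `B`: `v` vanishes on the whole class modulo `M`
of each of its zeros `n ≥ (B T + 2) ^ C`, and of each of its zeros `n ≥ C (log₂ (B T + 2) + 1)` if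
`F(t, X)` has no multiple roots.
(2) One primitive recursive procedure decides from the initial values and `t` whether `v` has a zero.
(3) For `T ≥ T₀` the zeros are those of one recurrence `f` with constant coefficients: for `q < N` let
`w` be the solution of the recurrence of `f` with the initial values
`w_i = W_(q,i)(num t, den t, z_0, ..., z_(d-1))` (this formula is then true for all `i`). If `w_n = 0` then
`v_(q + N n) = 0`, and conversely if `T ^ n > (B T) ^ c`. -/
theorem result (hS : Pool.Agent.Work.MP_8d13b5_lc.Fm.StSHN) (d : ℕ) (F : ℤ[X][X]) (hF : Fam d F) :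
    (∃ M C : ℕ, 1 ≤ M ∧ ∀ t : ℚ, aeval t (F.coeff 0) ≠ 0 →
      ∀ (z : ℕ → ℤ) (v : ℕ → ℚ), (∀ i < d, v i = z i) → Rec F t v → ∀ B : ℕ, Bound d B z →
        (∀ n, (B * height t + 2) ^ C ≤ n → v n = 0 → ∀ k, v (n % M + k * M) = 0) ∧
        (Simple F t → ∀ n, C * (Nat.log 2 (B * height t + 2) + 1) ≤ n → v n = 0 →
          ∀ k, v (n % M + k * M) = 0)) ∧
    (∃ A : List ℤ × (ℤ × ℤ) → Bool, Primrec A ∧
      ∀ t : ℚ, aeval t (F.coeff 0) ≠ 0 → ∀ (x : List ℤ) (v : ℕ → ℚ), x.length = d →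
        (∀ i < d, v i = x.getD i 0) → Rec F t v →
          (A (x, (t.num, (t.den : ℤ))) = true ↔ ∃ n, v n = 0)) ∧
    ∃ (N T₀ c : ℕ) (f : ℤ[X]) (W : ℕ → ℕ → MvPolynomial (Fin (d + 2)) ℤ),
      1 ≤ N ∧ f.Monic ∧ f.coeff 0 ≠ 0 ∧
      ∀ t : ℚ, T₀ ≤ height t → ∀ (z : ℕ → ℤ) (v : ℕ → ℚ), (∀ i < d, v i = z i) → Rec F t v →
        ∀ q < N, ∃ w : ℕ → ℤ, RecZ f w ∧ (∀ i, w i = MvPolynomial.eval (pt d t z) (W q i)) ∧
          (∀ n, w n = 0 → v (q + N * n) = 0) ∧
          ∀ B : ℕ, Bound d B z → ∀ n, (B * height t) ^ c < height t ^ n →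
            v (q + N * n) = 0 → w n = 0 := by
  have hF' : Pool.Agent.Work.MP_8d13b5_lc.Fm.FamilyReduction.Fam d F :=
    ⟨hF.monic, hF.deg, hF.pos, hF.ne⟩
  obtain ⟨h1, ⟨A, hA, hA2⟩, h3⟩ := Pool.Agent.Work.MP_8d13b5_lc.Fg.AllFamilies.final hS d F hF'
  exact ⟨h1, ⟨A, hA, fun t ht x v hx hi hv => (hA2 t ht x hx).trans
    (Pool.Agent.Work.MP_8d13b5_lc.Fm.FamilyReduction.zeroQ_iff hF' t x v hv hi)⟩, h3⟩

end Pool.Agent.Results.MP_8d13b5_lc.AllFamilies
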