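import Pool.Agent.Work.MP_8d13b5_lc.Fg.Stmts
import Pool.Agent.Work.Tools.Subspace.ItemP5
import Pool.Agent.Work.Tools.Subspace.ItemU1
import Pool.Agent.Work.Tools.Subspace.ItemU2

set_option autoImplicit false

/-!
# The Subspace theorem for a vanishing sum
-/

namespace Pool.Agent.Work.MP_8d13b5_lc.Fg

open Height Finset NumberField Matrix
open Pool.Agent.Work.Tools.Subspace

namespace IG1

variable {K : Type} [Field K]

/-- the forms at one place -/
noncomputable def fm {k : ℕ} (p : Fin (k + 1)) : Matrix (Fin k) (Fin k) K :=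
  Matrix.of fun i l => if i.castSucc = p then -1 else if i = l then 1 else 0

theorem fm_last {k : ℕ} : (fm (Fin.last k) : Matrix (Fin k) (Fin k) K) = 1 := by
  ext i l
  simp [fm, Matrix.one_apply]

theorem fm_castSucc {k : ℕ} (i0 : Fin k) :
    (fm i0.castSucc : Matrix (Fin k) (Fin k) K) =
      (1 : Matrix (Fin k) (Fin k) K).updateRow i0 (fun _ => -1) := by
  ext i l
  by_cases h : i = i0
  · subst h
    simp [fm]
  · simp [fm, h, Matrix.one_apply]

theorem det_fm {k : ℕ} (p : Fin (k + 1)) : (fm p : Matrix (Fin k) (Fin k) K).det ≠ 0 := by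
  induction p using Fin.lastCases with
  | last => rw [fm_last, Matrix.det_one]; exact one_ne_zero
  | cast i0 =>
    have h : ((1 : Matrix (Fin k) (Fin k) K).updateRow i0 (fun _ => -1)).det = -1 := by
      rw [← Matrix.det_transpose, ← Matrix.updateCol_transpose, Matrix.transpose_one,
        ← Matrix.cramer_apply, Matrix.cramer_one]
      rfl
    rw [fm_castSucc, h]
    exact neg_ne_zero.2 one_ne_zero

/-- the values of the forms -/
theorem fm_mulVec {k : ℕ} (p : Fin (k + 1)) (X : Fin (k + 1) → K) (hX : ∑ i, X i = 0)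
    (i : Fin k) : (fm p *ᵥ fun l : Fin k => X l.castSucc) i =
      if i.castSucc = p then X (Fin.last k) else X i.castSucc := by
  have h1 : (fm p *ᵥ fun l : Fin k => X l.castSucc) i =
      ∑ l : Fin k, (if i.castSucc = p then -1 else if i = l then 1 else 0) * X l.castSucc := rfl
  rw [h1]
  by_cases h : i.castSucc = p
  · simp only [h, if_true]
    rw [← Finset.mul_sum]
    rw [Fin.sum_univ_castSucc] at hX
    linear_combination -hX
  · simp only [h, if_false, ite_mul, one_mul, zero_mul]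
    rw [Finset.sum_ite_eq, if_pos (mem_univ i)]

theorem prod_fm {k : ℕ} (p : Fin (k + 1)) (g : Fin (k + 1) → ℝ) :
    (∏ i : Fin k, if i.castSucc = p then g (Fin.last k) else g i.castSucc) * g p = ∏ i, g i := by
  induction p using Fin.lastCases with
  | last =>
    rw [Fin.prod_univ_castSucc]
    congr 1
    refine Finset.prod_congr rfl fun i _ => ?_
    rw [if_neg (Fin.castSucc_lt_last i).ne]
  | cast i0 =>
    rw [Fin.prod_univ_castSucc, ← Finset.mul_prod_erase univ _ (mem_univ i0),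
      ← Finset.mul_prod_erase univ (fun i : Fin k => g i.castSucc) (mem_univ i0), if_pos rfl]
    have h3 : ∏ i ∈ univ.erase i0, (if i.castSucc = i0.castSucc then g (Fin.last k)
        else g i.castSucc) = ∏ i ∈ univ.erase i0, g i.castSucc := by
      refine Finset.prod_congr rfl fun i hi => ?_
      rw [if_neg]
      intro h
      exact ne_of_mem_erase hi (Fin.castSucc_injective k h)
    rw [h3]
    ring

variable [NumberField K] (S : Finset (FinitePlace K))

open Classical in
/-- the height as a product over the places of `S` and finitely many others -/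
theorem mulHeight_split {ι : Type} [Fintype ι] {y : ι → K} (hy : y ≠ 0) :
    ∃ F0 : Finset (FinitePlace K), ∀ F : Finset (FinitePlace K), F0 ⊆ F →
      mulHeight y = (∏ v, nnrm S v y) * ∏ v ∈ F \ S, ⨆ i, v (y i) := by
  have hf := IP5.hfs hy
  refine ⟨(hf : (fun v : FinitePlace K => ⨆ i, v (y i)).mulSupport.Finite).toFinset, ?_⟩
  intro F hF
  have h1 : ∏ᶠ v : FinitePlace K, ⨆ i, v (y i) = ∏ v ∈ F ∪ S, ⨆ i, v (y i) := by
    apply finprod_eq_prod_of_mulSupport_subset
    intro v hv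
    rw [Finset.coe_union]
    left
    exact hF ((Set.Finite.mem_toFinset _).2 hv)
  have h2 : ∏ v, nnrm S v y = (∏ v : InfinitePlace K, (⨆ i, v (y i)) ^ v.mult) *
      ∏ v ∈ S, ⨆ i, v (y i) := IP5.prod_nrm S y
  rw [NumberField.mulHeight_eq hy, h1, ← Finset.sdiff_union_self_eq_union,
    Finset.prod_union Finset.sdiff_disjoint, h2]
  ring

/-- the main inequality -/
theorem main_ineq {k : ℕ} (hk : 2 ≤ k) (α c : Fin (k + 1) → K) (hα : ∀ i, α i ∈ nU S)
    (hc : ∀ i, c i ≠ 0) (i : Fin (k + 1)) :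
    (∏ v, nN S v (c i)) * mulHeight (fun l : Fin k => c l.castSucc * α l.castSucc) ≤
      (∏ v, nnrm S v (fun l : Fin k => c l.castSucc * α l.castSucc)) * mulHeight c := by
  classical
  have : Nonempty (Fin k) := ⟨⟨0, by omega⟩⟩
  set x : Fin k → K := fun l : Fin k => c l.castSucc * α l.castSucc with hx
  have hx0 : x ≠ 0 := by
    intro h
    have h1 := congrFun h (Classical.arbitrary _)
    simp only [hx, Pi.zero_apply] at h1
    exact mul_ne_zero (hc _) (hα _).1 h1
  have hc0 : c ≠ 0 := fun h => hc i (by rw [h]; rfl)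
  obtain ⟨F1, hF1⟩ := mulHeight_split S hx0
  obtain ⟨F2, hF2⟩ := mulHeight_split S hc0
  rw [hF1 (F1 ∪ F2) Finset.subset_union_left, hF2 (F1 ∪ F2) Finset.subset_union_right]
  set F := (F1 ∪ F2) \ S with hF
  have h1 : ∏ v ∈ F, ⨆ l, v (x l) ≤ ∏ v ∈ F, ⨆ l, v (c l) := by
    refine Finset.prod_le_prod (fun v _ => IP5.iSup_nonneg v x) fun v hv => ?_
    rw [hF, Finset.mem_sdiff] at hv
    refine ciSup_le fun l => ?_
    have h2 : v (x l) = v (c l.castSucc) := by
      simp only [hx]
      rw [map_mul, (hα l.castSucc).2 v hv.2, mul_one]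
    rw [h2]
    exact le_ciSup (f := fun l => v (c l)) (Set.finite_range _).bddAbove l.castSucc
  have h2 : ∏ v, nN S v (c i) ≤ ∏ v, nnrm S v c :=
    Finset.prod_le_prod (fun v _ => IU2.nN_nonneg S v _) fun v _ => IU2.nN_le_nnrm S v c i
  have h3 : 0 ≤ ∏ v, nN S v (c i) := Finset.prod_nonneg fun v _ => IU2.nN_nonneg S v _
  have h4 : 0 ≤ ∏ v, nnrm S v x := Finset.prod_nonneg fun v _ => IU2.nnrm_nonneg S v x
  have h5 : 0 ≤ ∏ v ∈ F, ⨆ l, v (c l) := Finset.prod_nonneg fun v _ => IP5.iSup_nonneg v c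
  calc (∏ v, nN S v (c i)) * ((∏ v, nnrm S v x) * ∏ v ∈ F, ⨆ l, v (x l))
      = (∏ v, nnrm S v x) * ((∏ v, nN S v (c i)) * ∏ v ∈ F, ⨆ l, v (x l)) := by ring
    _ ≤ (∏ v, nnrm S v x) * ((∏ v, nnrm S v c) * ∏ v ∈ F, ⨆ l, v (c l)) := by
        apply mul_le_mul_of_nonneg_left _ h4
        exact mul_le_mul h2 h1 (Finset.prod_nonneg fun v _ => IP5.iSup_nonneg v x)
          (Finset.prod_nonneg fun v _ => IU2.nnrm_nonneg S v c)

/-- the double product -/
theorem double_prod {k : ℕ} (hk : 2 ≤ k) (α c : Fin (k + 1) → K) (hα : ∀ i, α i ∈ nU S)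
    (hc : ∀ i, c i ≠ 0) (hsum : ∑ i, c i * α i = 0) :
    ∃ j : NV K S → Fin (k + 1),
      (∏ v, ∏ i, nN S v ((fm (j v) *ᵥ fun l : Fin k => c l.castSucc * α l.castSucc) i) /
        nnrm S v (fun l : Fin k => c l.castSucc * α l.castSucc)) *
        mulHeight (fun l : Fin k => c l.castSucc * α l.castSucc) ^ (k + 1) ≤
        mulHeight c ^ (k + 1) := by
  classical
  have : Nonempty (Fin k) := ⟨⟨0, by omega⟩⟩
  have hne : Nonempty (Fin (k + 1)) := inferInstance
  set x : Fin k → K := fun l : Fin k => c l.castSucc * α l.castSucc with hx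
  set X : Fin (k + 1) → K := fun i => c i * α i with hX
  have hX0 : ∀ i, X i ≠ 0 := fun i => mul_ne_zero (hc i) (hα i).1
  choose j hj using fun v : NV K S => IU2.exists_nN_eq_nnrm S v X
  refine ⟨j, ?_⟩
  have hxpos : ∀ v, 0 < nnrm S v x := by
    intro v
    obtain ⟨i, hi⟩ := IU2.exists_nN_eq_nnrm S v x
    rw [hi]
    exact IU2.nN_pos S v (hX0 i.castSucc)
  have hxX : ∀ v, nnrm S v x ≤ nN S v (X (j v)) := by
    intro v
    obtain ⟨i, hi⟩ := IU2.exists_nN_eq_nnrm S v x
    rw [hi, ← hj v]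
    exact IU2.nN_le_nnrm S v X i.castSucc
  have hloc : ∀ v, ∏ i, nN S v ((fm (j v) *ᵥ x) i) / nnrm S v x ≤
      (∏ i, nN S v (X i)) / nnrm S v x ^ (k + 1) := by
    intro v
    have h1 : (∏ i, nN S v ((fm (j v) *ᵥ x) i)) * nN S v (X (j v)) = ∏ i, nN S v (X i) := by
      rw [← prod_fm (j v) (fun i => nN S v (X i))]
      congr 1
      refine Finset.prod_congr rfl fun i _ => ?_
      have h2 := fm_mulVec (j v) X hsum i
      have h3 : (fun l : Fin k => X l.castSucc) = x := rfl
      rw [h3] at h2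
      rw [h2]
      split_ifs <;> rfl
    rw [Finset.prod_div_distrib, Finset.prod_const, Finset.card_univ, Fintype.card_fin, ← h1,
      div_le_div_iff₀ (pow_pos (hxpos v) _) (pow_pos (hxpos v) _), pow_succ]
    have h2 : 0 ≤ ∏ i, nN S v ((fm (j v) *ᵥ x) i) :=
      Finset.prod_nonneg fun i _ => IU2.nN_nonneg S v _
    calc (∏ i, nN S v ((fm (j v) *ᵥ x) i)) * (nnrm S v x ^ k * nnrm S v x)
        ≤ (∏ i, nN S v ((fm (j v) *ᵥ x) i)) * (nnrm S v x ^ k * nN S v (X (j v))) := by
          apply mul_le_mul_of_nonneg_left _ h2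
          exact mul_le_mul_of_nonneg_left (hxX v) (pow_nonneg (hxpos v).le _)
      _ = _ := by ring
  have hprod : ∏ v, ((∏ i, nN S v (X i)) / nnrm S v x ^ (k + 1)) =
      (∏ i, ∏ v, nN S v (c i)) / (∏ v, nnrm S v x) ^ (k + 1) := by
    rw [Finset.prod_div_distrib, Finset.prod_pow, Finset.prod_comm]
    congr 1
    refine Finset.prod_congr rfl fun i _ => ?_
    simp only [hX, IU2.nN_mul]
    rw [Finset.prod_mul_distrib, IU1.prod_nN S (hα i), mul_one]
  have hN : 0 < ∏ v, nnrm S v x := Finset.prod_pos fun v _ => hxpos v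
  have hHpos : 0 < mulHeight x := zero_lt_one.trans_le (one_le_mulHeight x)
  have h1 : ∏ v, ∏ i, nN S v ((fm (j v) *ᵥ x) i) / nnrm S v x ≤
      (∏ i, ∏ v, nN S v (c i)) / (∏ v, nnrm S v x) ^ (k + 1) := by
    rw [← hprod]
    refine Finset.prod_le_prod (fun v _ => Finset.prod_nonneg fun i _ => ?_) fun v _ => hloc v
    exact div_nonneg (IU2.nN_nonneg S v _) (hxpos v).le
  calc (∏ v, ∏ i, nN S v ((fm (j v) *ᵥ x) i) / nnrm S v x) * mulHeight x ^ (k + 1)
      ≤ ((∏ i, ∏ v, nN S v (c i)) / (∏ v, nnrm S v x) ^ (k + 1)) * mulHeight x ^ (k + 1) :=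
        mul_le_mul_of_nonneg_right h1 (pow_nonneg hHpos.le _)
    _ = ∏ i : Fin (k + 1), (∏ v, nN S v (c i)) * mulHeight x / (∏ v, nnrm S v x) := by
        rw [Finset.prod_div_distrib, Finset.prod_mul_distrib, Finset.prod_const,
          Finset.prod_const, Finset.card_univ, Fintype.card_fin]
        ring
    _ ≤ ∏ i : Fin (k + 1), mulHeight c := by
        refine Finset.prod_le_prod (fun i _ => ?_) fun i _ => ?_
        · exact div_nonneg (mul_nonneg (Finset.prod_nonneg fun v _ => IU2.nN_nonneg S v _)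
            hHpos.le) hN.le
        · rw [div_le_iff₀ hN, mul_comm (mulHeight c)]
          exact main_ineq S hk α c hα hc i
    _ = mulHeight c ^ (k + 1) := by
        rw [Finset.prod_const, Finset.card_univ, Fintype.card_fin]

end IG1

theorem prfG1 (hN : ClaimN) : ClaimG1 := by
  classical
  intro K _ _ S k hk
  choose T hTfin hTtop hT using fun j : NV K S → Fin (k + 1) =>
    hN K S k (fun v => IG1.fm (j v)) (1 / 2) hk (fun v => IG1.det_fm (j v)) (by norm_num)
  have hb : ∀ W : Submodule K (Fin k → K), ∃ b : Fin k → K, b ≠ 0 ∧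
      (W ≠ ⊤ → ∀ y ∈ W, ∑ i, b i * y i = 0) := by
    intro W
    by_cases hW : W = ⊤
    · refine ⟨fun _ => 1, ?_, fun h => absurd hW h⟩
      intro h
      have := congrFun h ⟨0, by omega⟩
      exact one_ne_zero this
    · obtain ⟨b, hb, hb2⟩ := IU2.exists_relation hW
      exact ⟨b, hb, fun _ => hb2⟩
  choose b hb1 hb2 using hb
  refine ⟨⋃ j, b '' T j, Set.finite_iUnion fun j => (hTfin j).image b, ?_, ?_⟩
  · intro z hz
    obtain ⟨j, hj⟩ := Set.mem_iUnion.1 hz
    obtain ⟨W, -, rfl⟩ := hj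
    exact hb1 W
  · intro α c hα hc hsum hH
    obtain ⟨j, hj⟩ := IG1.double_prod S hk α c hα hc hsum
    set x : Fin k → K := fun l : Fin k => c l.castSucc * α l.castSucc with hx
    have hx0 : x ≠ 0 := by
      intro h
      have h1 := congrFun h ⟨0, by omega⟩
      simp only [hx, Pi.zero_apply] at h1
      exact mul_ne_zero (hc _) (hα _).1 h1
    have hHpos : 0 < mulHeight x := zero_lt_one.trans_le (one_le_mulHeight x)
    obtain ⟨W, hW, hxW⟩ := hT j x hx0 (by
      have h1 : mulHeight c ^ (k + 1) ≤ mulHeight x ^ (1 / 2 : ℝ) := by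
        rw [← Real.sqrt_eq_rpow]
        apply Real.le_sqrt_of_sq_le
        rw [← pow_mul, mul_comm]
        exact hH
      have h2 : mulHeight x ^ (-(k : ℝ) - 1 / 2) =
          mulHeight x ^ (1 / 2 : ℝ) / mulHeight x ^ (k + 1) := by
        rw [← Real.rpow_natCast (mulHeight x) (k + 1), ← Real.rpow_sub hHpos]
        congr 1
        push_cast
        ring
      rw [h2, le_div_iff₀ (pow_pos hHpos _)]
      exact hj.trans h1)
    refine ⟨b W, Set.mem_iUnion.2 ⟨j, W, hW, rfl⟩, hb2 W (hTtop j W hW) x hxW⟩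

end Pool.Agent.Work.MP_8d13b5_lc.Fg
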