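import Pool.Agent.Work.MP_8d13b5_lc.Fg.Stmts

set_option autoImplicit false

/-!
# Item G2: zeros of sums with moving coefficients
-/

namespace Pool.Agent.Work.MP_8d13b5_lc.Fg

open Height AdmissibleAbsValues Polynomial Finset NumberField
open Pool.Agent.Work.Tools.Subspace (NV nabv ne nN nO nU nnrm ClaimN)
open Pool.Agent.Work.MP_8d13b5_lc.Rk

namespace IG2

variable {K : Type} [Field K] [NumberField K]

theorem pow_mem {S : Finset (FinitePlace K)} {x : K} (hx : x ∈ nU S) (n : ℕ) :
    x ^ n ∈ nU S := by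
  refine ⟨pow_ne_zero n hx.1, fun v hv => ?_⟩
  rw [map_pow, hx.2 v hv, one_pow]

theorem exp_le {h : ℝ} (hh : ∀ x : K, x ≠ 0 → (∀ m : ℕ, 0 < m → x ^ m ≠ 1) →
    h ≤ Real.log (mulHeight₁ x)) {x : K} (hx : x ≠ 0) (hx1 : ∀ m : ℕ, 0 < m → x ^ m ≠ 1)
    (n : ℕ) : h * n ≤ Real.log (mulHeight₁ (x ^ n)) := by
  rw [mulHeight₁_pow, Real.log_pow, mul_comm]
  exact mul_le_mul_of_nonneg_left (hh x hx hx1) (Nat.cast_nonneg n)

theorem ratio_le {ι : Type} [Fintype ι] (c : ι → K) (i j : ι) :
    mulHeight₁ (c i / c j) ≤ mulHeight c := by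
  rw [mulHeight₁_div_eq_mulHeight]
  have h : ![c i, c j] = c ∘ ![i, j] := by
    funext a
    fin_cases a <;> rfl
  rw [h]
  exact mulHeight_comp_le _ _

theorem step {S : Finset (FinitePlace K)} {h : ℝ} (h0 : 0 < h)
    (hh : ∀ x : K, x ≠ 0 → (∀ m : ℕ, 0 < m → x ^ m ≠ 1) → h ≤ Real.log (mulHeight₁ x))
    (h1 : ClaimG1) (k : ℕ) (hk : 2 ≤ k) (C' : ℝ) (hC' : 0 ≤ C')
    (ih : ∀ (α c : Fin k → K), (∀ i, α i ∈ nU S) →
      (∀ i j, i ≠ j → ∀ m : ℕ, 0 < m → (α i / α j) ^ m ≠ 1) → c ≠ 0 →
      ∀ n : ℕ, ∑ i, c i * α i ^ n = 0 → (n : ℝ) ≤ C' * (1 + Real.log (mulHeight c))) :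
    ∃ C : ℝ, 0 ≤ C ∧ ∀ (α c : Fin (k + 1) → K), (∀ i, α i ∈ nU S) →
      (∀ i j, i ≠ j → ∀ m : ℕ, 0 < m → (α i / α j) ^ m ≠ 1) → c ≠ 0 →
      ∀ n : ℕ, ∑ i, c i * α i ^ n = 0 → (n : ℝ) ≤ C * (1 + Real.log (mulHeight c)) := by
  obtain ⟨T, hT, hT0, hG⟩ := h1 K S k hk
  obtain ⟨B₀, hB₀⟩ := (hT.image fun b => Real.log (mulHeight b)).bddAbove
  set B := |B₀| with hB
  have hBb : ∀ b ∈ T, Real.log (mulHeight b) ≤ B := fun b hb =>
    (hB₀ (Set.mem_image_of_mem _ hb)).trans (le_abs_self _)
  have hB0 : 0 ≤ B := abs_nonneg _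
  refine ⟨C' * (1 + B) + (2 * k + 3) / h, by positivity, ?_⟩
  intro α c hα hroot hc n hn
  have hL : 0 ≤ Real.log (mulHeight c) := Real.log_nonneg (one_le_mulHeight c)
  set L := Real.log (mulHeight c) with hLdef
  have hq : 0 ≤ (2 * (k : ℝ) + 3) / h := by positivity
  have hCB : 0 ≤ C' * B := by positivity
  by_cases hz : ∃ i, c i = 0
  · obtain ⟨i, hi⟩ := hz
    have hc' : c ∘ i.succAbove ≠ 0 := by
      intro h0
      apply hc
      funext j
      rcases Fin.eq_self_or_eq_succAbove i j with rfl | ⟨l, rfl⟩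
      · exact hi
      · exact congrFun h0 l
    have h2 := ih (α ∘ i.succAbove) (c ∘ i.succAbove) (fun j => hα _)
      (fun a b hab m hm => hroot _ _ (fun h => hab (Fin.succAbove_right_injective h)) m hm) hc' n
      (by rw [Fin.sum_univ_succAbove _ i, hi, zero_mul, zero_add] at hn; exact hn)
    have h3 : Real.log (mulHeight (c ∘ i.succAbove)) ≤ L :=
      Real.log_le_log (mulHeight_pos _) (mulHeight_comp_le _ _)
    have h4 : C' * (1 + Real.log (mulHeight (c ∘ i.succAbove))) ≤ C' * (1 + L) :=
      mul_le_mul_of_nonneg_left (by linarith) hC'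
    nlinarith [mul_nonneg hCB hL, mul_nonneg hq hL]
  · push Not at hz
    by_cases hn2 : (n : ℝ) ≤ (2 * k + 3) / h * L
    · nlinarith [mul_nonneg hCB hL, mul_nonneg hC' hL]
    · push Not at hn2
      have hn3 : (2 * k + 3) * L ≤ h * n := by
        have := mul_le_mul_of_nonneg_left hn2.le h0.le
        rw [← mul_assoc, mul_div_cancel₀ _ h0.ne'] at this
        exact this
      set x : Fin k → K := fun i => c i.castSucc * α i.castSucc ^ n with hx
      let a : Fin k := ⟨0, by omega⟩
      let b : Fin k := ⟨1, by omega⟩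
      have hab : a.castSucc ≠ b.castSucc := by
        intro h
        have := congrArg Fin.val h
        simp [a, b] at this
      have e1 : h * n ≤ Real.log (mulHeight₁ ((α a.castSucc / α b.castSucc) ^ n)) :=
        exp_le hh (div_ne_zero (hα _).1 (hα _).1) (hroot _ _ hab) n
      have e2 : mulHeight₁ ((α a.castSucc / α b.castSucc) ^ n) ≤ mulHeight x * mulHeight c := by
        have h5 : (α a.castSucc / α b.castSucc) ^ n =
            (x a / x b) * (c b.castSucc / c a.castSucc) := by
          have := hz a.castSucc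
          have := hz b.castSucc
          have := pow_ne_zero n (hα b.castSucc).1
          simp only [hx]
          rw [div_pow]
          field_simp
        rw [h5]
        refine (mulHeight₁_mul_le _ _).trans ?_
        exact mul_le_mul (ratio_le x a b) (ratio_le c _ _) (mulHeight₁_nonneg _) (mulHeight_pos _).le
      have e3 : mulHeight c ^ (2 * (k + 1)) ≤ mulHeight x := by
        have h6 := Real.log_le_log (mulHeight₁_pos _) e2
        rw [Real.log_mul (mulHeight_ne_zero _) (mulHeight_ne_zero _)] at h6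
        rw [← Real.log_le_log_iff (pow_pos (mulHeight_pos _) _) (mulHeight_pos _), Real.log_pow]
        push_cast
        rw [← hLdef] at h6 ⊢
        linarith
      obtain ⟨b', hb', hsum⟩ := hG (fun i => α i ^ n) c (fun i => pow_mem (hα i) n) hz hn e3
      have hc' : b' * (c ∘ Fin.castSucc) ≠ 0 := by
        intro h0
        apply hT0 b' hb'
        funext j
        have := congrFun h0 j
        simp only [Pi.mul_apply, Pi.zero_apply, Function.comp_apply, mul_eq_zero] at this
        exact this.resolve_right (hz _)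
      have h2 := ih (α ∘ Fin.castSucc) (b' * (c ∘ Fin.castSucc)) (fun j => hα _)
        (fun a b hab m hm => hroot _ _ (fun h => hab (Fin.castSucc_injective _ h)) m hm) hc' n
        (by
          rw [← hsum]
          refine Finset.sum_congr rfl fun i _ => ?_
          simp only [Pi.mul_apply, Function.comp_apply, mul_assoc])
      have h3 : Real.log (mulHeight (b' * (c ∘ Fin.castSucc))) ≤ B + L := by
        have h7 : mulHeight (b' * (c ∘ Fin.castSucc)) ≤ mulHeight b' * mulHeight c :=
          (mulHeight_mul_le _ _).trans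
            (mul_le_mul_of_nonneg_left (mulHeight_comp_le _ _) (mulHeight_pos _).le)
        have h8 := Real.log_le_log (mulHeight_pos _) h7
        rw [Real.log_mul (mulHeight_ne_zero _) (mulHeight_ne_zero _)] at h8
        have := hBb b' hb'
        linarith
      have h4 : C' * (1 + Real.log (mulHeight (b' * (c ∘ Fin.castSucc)))) ≤ C' * (1 + (B + L)) :=
        mul_le_mul_of_nonneg_left (by linarith) hC'
      nlinarith [mul_nonneg hCB hL, mul_nonneg hq hL]

end IG2

/-- G2: zeros of sums with moving coefficients -/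
theorem prfG2 (hH : ClaimH) (h1 : ClaimG1) : ClaimG2 := by
  intro K _ _ S k
  obtain ⟨h, h0, hh⟩ := hH K
  induction k with
  | zero =>
    refine ⟨0, le_rfl, fun α c _ _ hc => ?_⟩
    exact absurd (Subsingleton.elim c 0) hc
  | succ k ih =>
    rcases Nat.lt_or_ge k 2 with hk | hk
    · interval_cases k
      · refine ⟨0, le_rfl, fun α c hα _ hc n hn => ?_⟩
        exfalso
        apply hc
        funext i
        rw [Fin.sum_univ_one] at hn
        fin_cases i
        exact (mul_eq_zero.mp hn).resolve_right (pow_ne_zero n (hα 0).1)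
      · refine ⟨1 / h, by positivity, fun α c hα hroot hc n hn => ?_⟩
        rw [Fin.sum_univ_two] at hn
        have hα0 := pow_ne_zero n (hα 0).1
        have hα1 := pow_ne_zero n (hα 1).1
        have hc0 : c 0 ≠ 0 := by
          intro h00
          rw [h00, zero_mul, zero_add] at hn
          apply hc
          funext i
          fin_cases i
          · exact h00
          · exact (mul_eq_zero.mp hn).resolve_right hα1
        have e1 := IG2.exp_le hh (div_ne_zero (hα 0).1 (hα 1).1) (hroot 0 1 (by decide)) n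
        have e2 : (α 0 / α 1) ^ n = -(c 1 / c 0) := by
          rw [div_pow]
          field_simp
          linear_combination hn
        rw [e2, mulHeight₁_neg] at e1
        have e3 := Real.log_le_log (mulHeight₁_pos _) (IG2.ratio_le c 1 0)
        rw [div_mul_eq_mul_div, one_mul, le_div_iff₀ h0]
        linarith
    · obtain ⟨C', hC', ih⟩ := ih
      exact IG2.step h0 hh h1 k hk C' hC' ih

end Pool.Agent.Work.MP_8d13b5_lc.Fg
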