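import Pool.Agent.Work.MP_8d13b5_lc.Fg.Stmts

set_option autoImplicit false

/-!
# Item G2': zeros of sums over finite sets of numbers
-/

namespace Pool.Agent.Work.MP_8d13b5_lc.Fg

open Height AdmissibleAbsValues Polynomial Finset NumberField
open Pool.Agent.Work.Tools.Subspace (NV nabv ne nN nO nU nnrm ClaimN)
open Pool.Agent.Work.MP_8d13b5_lc.Rk

namespace IG2p

theorem height_le_prod {K : Type} [Field K] [NumberField K] {ι : Type} [Fintype ι]
    [DecidableEq ι] (c : ι → K) : mulHeight c ≤ ∏ i, mulHeight₁ (c i) := by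
  have hx : ∀ i, (![c i, 1] : Fin 2 → K) ≠ 0 := by
    intro i h
    have := congrFun h 1
    simp at this
  have h1 : ∏ i, mulHeight₁ (c i) = mulHeight
      (fun I : (i : ι) → Fin 2 => ∏ a, (![c a, 1] : Fin 2 → K) (I a)) := by
    rw [mulHeight_fun_prod_eq hx]
    exact Finset.prod_congr rfl fun i _ => mulHeight₁_eq_mulHeight _
  have h2 : c = (fun I : (i : ι) → Fin 2 => ∏ a, (![c a, 1] : Fin 2 → K) (I a)) ∘
      (fun i => Function.update (fun _ => (1 : Fin 2)) i 0) := by
    funext i
    rw [Function.comp_apply, Finset.prod_eq_single i]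
    · rw [Function.update_self]
      rfl
    · intro j _ hj
      rw [Function.update_of_ne hj]
      rfl
    · intro h
      exact absurd (Finset.mem_univ i) h
  rw [h1]
  conv_lhs => rw [h2]
  exact mulHeight_comp_le _ _

end IG2p

open IG2p in
/-- G2': zeros of sums over finite sets of numbers. -/
theorem prfG2p (h : ClaimG2) : ClaimG2' := by
  intro K _ _ S k
  choose C hC0 hC using h K S
  have hterm : ∀ k' ∈ Finset.range (k + 1), 0 ≤ C k' * (k + 1) := fun k' _ =>
    mul_nonneg (hC0 k') (by positivity)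
  refine ⟨∑ k' ∈ Finset.range (k + 1), C k' * (k + 1), Finset.sum_nonneg hterm,
    fun T c B hT hU hrat hne hB n hn => ?_⟩
  let e : Fin T.card ≃ T := T.equivFin.symm
  have hB1 : 1 ≤ B := by
    obtain ⟨x, hx, -⟩ := hne
    exact (one_le_mulHeight₁ (c x)).trans (hB x hx)
  have hlB : 0 ≤ Real.log B := Real.log_nonneg hB1
  have h1 := hC T.card (fun i => ((e i : T) : K)) (fun i => c (e i)) (fun i => hU _ (e i).2)
    (fun i j hij m hm => hrat _ (e i).2 _ (e j).2
      (fun h => hij (e.injective (Subtype.ext h))) m hm) (by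
      obtain ⟨x, hx, hcx⟩ := hne
      intro h0
      have h2 := congrFun h0 (e.symm ⟨x, hx⟩)
      simp only [Equiv.apply_symm_apply] at h2
      exact hcx h2) n (by
      rw [← hn]
      rw [Equiv.sum_comp e (fun x : T => c x * (x : K) ^ n)]
      exact Finset.sum_coe_sort T (fun x => c x * x ^ n))
  have h2 : Real.log (mulHeight fun i => c (e i)) ≤ k * Real.log B := by
    have h3 : mulHeight (fun i => c (e i)) ≤ B ^ T.card := by
      refine (height_le_prod _).trans ?_
      calc ∏ i, mulHeight₁ (c (e i)) ≤ ∏ _i : Fin T.card, B :=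
            Finset.prod_le_prod (fun i _ => mulHeight₁_nonneg _) fun i _ => hB _ (e i).2
        _ = B ^ T.card := by rw [Finset.prod_const, Finset.card_univ, Fintype.card_fin]
    have h4 := Real.log_le_log (mulHeight_pos _) h3
    rw [Real.log_pow] at h4
    refine h4.trans (mul_le_mul_of_nonneg_right ?_ hlB)
    exact_mod_cast hT
  have h5 : C T.card * (k + 1) ≤ ∑ k' ∈ Finset.range (k + 1), C k' * (k + 1) :=
    Finset.single_le_sum (f := fun k' => C k' * ((k : ℝ) + 1)) hterm
      (Finset.mem_range.2 (by omega))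
  calc (n : ℝ) ≤ C T.card * (1 + Real.log (mulHeight fun i => c (e i))) := h1
    _ ≤ C T.card * (1 + k * Real.log B) := mul_le_mul_of_nonneg_left (by linarith) (hC0 _)
    _ ≤ C T.card * ((k + 1) * (1 + Real.log B)) := by
        refine mul_le_mul_of_nonneg_left ?_ (hC0 _)
        have : (0 : ℝ) ≤ k := Nat.cast_nonneg k
        nlinarith
    _ = C T.card * (k + 1) * (1 + Real.log B) := by ring
    _ ≤ _ := mul_le_mul_of_nonneg_right h5 (by linarith)

end Pool.Agent.Work.MP_8d13b5_lc.Fg
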