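import Pool.Agent.Work.MP_8d13b5_lc.Fg.Stmts
import Pool.Agent.Work.MP_8d13b5_lc.Rk.ExpPoly

set_option autoImplicit false

/-!
# Exponential polynomials of recurrences: bounds polynomial in the size of the coefficients
-/

namespace Pool.Agent.Work.MP_8d13b5_lc.Fg

open Height AdmissibleAbsValues Polynomial Finset
open Pool.Agent.Work.MP_8d13b5_lc.Rk

namespace IG3

/-- functions of `s` that are bounded by a power of `s + 2` -/
def PB (f : ℕ → ℕ) : Prop := ∃ C : ℕ, ∀ s, f s ≤ (s + 2) ^ C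

theorem PB.const (c : ℕ) : PB fun _ => c := by
  refine ⟨c, fun s => ?_⟩
  exact (Nat.lt_two_pow_self (n := c)).le.trans (Nat.pow_le_pow_left (by omega) c)

theorem PB.succ : PB fun s => s + 1 := ⟨1, fun s => by simp⟩

theorem PB.mul {f g : ℕ → ℕ} (hf : PB f) (hg : PB g) : PB fun s => f s * g s := by
  obtain ⟨a, ha⟩ := hf
  obtain ⟨b, hb⟩ := hg
  exact ⟨a + b, fun s => by rw [pow_add]; exact Nat.mul_le_mul (ha s) (hb s)⟩

theorem PB.pow {f : ℕ → ℕ} (hf : PB f) (n : ℕ) : PB fun s => f s ^ n := by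
  obtain ⟨a, ha⟩ := hf
  exact ⟨a * n, fun s => by rw [pow_mul]; exact Nat.pow_le_pow_left (ha s) n⟩

/-- bound for the roots -/
def g1 (D s : ℕ) : ℕ := (D + 1) ^ D * ((s + 1) ^ D) ^ (D + 1)

/-- bound for the entries of the matrix -/
def g2 (D s : ℕ) : ℕ := (2 ^ D) ^ D * g1 D s ^ (D + 1)

/-- bound for the determinants -/
def g3 (D s : ℕ) : ℕ := D.factorial ^ D * (g2 D s ^ D) ^ D.factorial

/-- bound for the terms of the coefficients -/
def g4 (D s : ℕ) : ℕ :=
  g3 D s * g3 D s * g1 D s ^ D * D.factorial ^ D * D.factorial ^ D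

/-- final bound -/
def gb (D s : ℕ) : ℕ := (D + 1) ^ D * g4 D s ^ D

theorem pb1 (D : ℕ) : PB (g1 D) := (PB.const _).mul ((PB.succ.pow D).pow (D + 1))

theorem pb2 (D : ℕ) : PB (g2 D) := (PB.const _).mul ((pb1 D).pow (D + 1))

theorem pb3 (D : ℕ) : PB (g3 D) := (PB.const _).mul (((pb2 D).pow D).pow D.factorial)

theorem pb4 (D : ℕ) : PB (g4 D) :=
  ((((pb3 D).mul (pb3 D)).mul ((pb1 D).pow D)).mul (PB.const _)).mul (PB.const _)

theorem pbb (D : ℕ) : PB (gb D) := (PB.const _).mul ((pb4 D).pow D)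

theorem g1_pos (D s : ℕ) : 1 ≤ g1 D s := Nat.succ_le_iff.2 (by unfold g1; positivity)

theorem g2_pos (D s : ℕ) : 1 ≤ g2 D s :=
  Nat.succ_le_iff.2 (by have := g1_pos D s; unfold g2; positivity)

theorem g3_pos (D s : ℕ) : 1 ≤ g3 D s :=
  Nat.succ_le_iff.2 (by have := g2_pos D s; unfold g3; positivity)

theorem g4_pos (D s : ℕ) : 1 ≤ g4 D s :=
  Nat.succ_le_iff.2 (by have := g3_pos D s; have := g1_pos D s; unfold g4; positivity)

theorem gb_pos (D s : ℕ) : 1 ≤ gb D s :=
  Nat.succ_le_iff.2 (by have := g4_pos D s; unfold gb; positivity)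

/-- height of the roots of a monic integer polynomial -/
theorem root_height {K : Type*} [Field K] [CharZero K] [AdmissibleAbsValues K] (D s : ℕ)
    (hW : totalWeight K ≤ D) (χ : ℤ[X]) (hχ : χ.Monic) (hd : χ.natDegree ≤ D)
    (hc : ∀ i, |χ.coeff i| ≤ s) (x : K) (hx : (χ.map (algebraMap ℤ K)).IsRoot x) :
    mulHeight₁ x ≤ g1 D s := by
  have hf : χ.map (algebraMap ℤ K) ≠ 0 := (hχ.map _).ne_zero
  have hdeg : (χ.map (algebraMap ℤ K)).natDegree = χ.natDegree :=
    natDegree_map_eq_of_injective (algebraMap ℤ K).injective_int _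
  have hA : ∀ i, mulHeight₁ ((χ.map (algebraMap ℤ K)).coeff i) ≤ ((s : ℝ) + 1) ^ D := by
    intro i
    rw [coeff_map, eq_intCast]
    have := height_int_le (K := K) (χ.coeff i) (s + 1) D (by omega)
      ((hc i).trans (by push_cast; omega)) hW
    exact_mod_cast this
  refine (height_root _ hf x hx _ hA).trans ?_
  rw [hdeg, g1]
  push_cast
  have h0 : (1 : ℝ) ≤ (s : ℝ) + 1 := by linarith [(Nat.cast_nonneg s : (0 : ℝ) ≤ s)]
  have h1 : (1 : ℝ) ≤ (D : ℝ) + 1 := by linarith [(Nat.cast_nonneg D : (0 : ℝ) ≤ D)]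
  have h2 : ((χ.natDegree : ℝ) + 1) ≤ (D : ℝ) + 1 := by
    have : (χ.natDegree : ℝ) ≤ D := by exact_mod_cast hd
    linarith
  refine mul_le_mul ?_ ?_ (by positivity) (by positivity)
  · exact (pow_le_pow_left₀ (by positivity) h2 _).trans (pow_le_pow_right₀ h1 hW)
  · exact pow_le_pow_right₀ (one_le_pow₀ h0) (by omega)

theorem entry_height {K : Type*} [Field K] [AdmissibleAbsValues K] (D s : ℕ)
    (hW : totalWeight K ≤ D) (x : K) (hx : mulHeight₁ x ≤ g1 D s) (j k : ℕ) (hj : j ≤ D) :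
    mulHeight₁ ((taylor x (X ^ j : K[X])).coeff k) ≤ g2 D s := by
  rw [taylor_coeff_X_pow]
  refine (mulHeight₁_mul_le _ _).trans ?_
  have he1 : (1 : ℝ) ≤ g1 D s := by exact_mod_cast g1_pos D s
  have h1 : mulHeight₁ (x ^ (j - k)) ≤ (g1 D s : ℝ) ^ (D + 1) := by
    rw [mulHeight₁_pow]
    exact (pow_le_pow_left₀ (mulHeight₁_nonneg _) hx _).trans (pow_le_pow_right₀ he1 (by omega))
  have h2 : mulHeight₁ ((j.choose k : ℕ) : K) ≤ ((2 : ℝ) ^ D) ^ D := by
    have := height_int_le (K := K) (j.choose k : ℤ) (2 ^ D) D Nat.one_le_two_pow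
      (by rw [Nat.abs_cast]
          exact_mod_cast (Nat.choose_le_two_pow j k).trans (Nat.pow_le_pow_right (by norm_num) hj))
      hW
    push_cast at this
    exact this
  rw [g2]
  push_cast
  rw [mul_comm (((2 : ℝ) ^ D) ^ D)]
  exact mul_le_mul h1 h2 (mulHeight₁_nonneg _) (by positivity)

end IG3

open IG3 in
open Classical in
theorem prfG3 : ClaimG3 := by
  intro D
  obtain ⟨C₁, hC₁⟩ := pb1 D
  obtain ⟨C₂, hC₂⟩ := pbb D
  refine ⟨C₁ + C₂, fun s K _ _ hK χ hχ hχ0 hd hcoef hs u hu hA => ?_⟩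
  have hs1 : (1 : ℝ) ≤ (s : ℝ) + 2 := by linarith [(Nat.cast_nonneg s : (0 : ℝ) ≤ s)]
  have hg1 : (g1 D s : ℝ) ≤ ((s : ℝ) + 2) ^ (C₁ + C₂) := by
    have h1 : (g1 D s : ℝ) ≤ ((s : ℝ) + 2) ^ C₁ := by exact_mod_cast hC₁ s
    exact h1.trans (pow_le_pow_right₀ hs1 (by omega))
  have hgb : (gb D s : ℝ) ≤ ((s : ℝ) + 2) ^ (C₁ + C₂) := by
    have h1 : (gb D s : ℝ) ≤ ((s : ℝ) + 2) ^ C₂ := by exact_mod_cast hC₂ s
    exact h1.trans (pow_le_pow_right₀ hs1 (by omega))
  have hW : totalWeight K ≤ D := by rw [NumberField.totalWeight_eq_finrank]; exact hK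
  set f : K[X] := χ.map (algebraMap ℤ K) with hf
  have hfm : f.Monic := hχ.map _
  have hf0 : f ≠ 0 := hfm.ne_zero
  have hdf : f.natDegree = χ.natDegree :=
    natDegree_map_eq_of_injective (algebraMap ℤ K).injective_int _
  have hroots : χ.aroots K = f.roots := rfl
  have hcard : Multiset.card f.roots = χ.natDegree := by
    rw [← hs.natDegree_eq_card_roots, hdf]
  have hcount : ∀ x, f.roots.count x ≤ D := fun x =>
    (Multiset.count_le_card x f.roots).trans (by rw [hcard]; exact hd)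
  -- roots
  have hrootmem : ∀ x ∈ f.roots, f.IsRoot x := fun x hx => (mem_roots hf0).1 hx
  have hroot0 : ∀ x ∈ f.roots, x ≠ 0 := by
    rintro x hx rfl
    have h := hrootmem _ hx
    rw [IsRoot, ← coeff_zero_eq_eval_zero, hf, coeff_map, eq_intCast] at h
    exact hχ0 (by exact_mod_cast h)
  have hrootH : ∀ x ∈ f.roots, mulHeight₁ x ≤ g1 D s := fun x hx =>
    root_height D s hW χ hχ hd hcoef x (hrootmem x hx)
  set e : Ix f ≃ Fin f.natDegree := Fintype.equivFinOfCardEq (card_Ix f hs) with he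
  obtain ⟨c, hc, hcu⟩ := interp f hs hf0 e (fun j => (u j : K))
  -- heights of the coefficients
  have hcH : ∀ i, mulHeight₁ (c i) ≤ (g3 D s : ℝ) * g3 D s := by
    intro i
    rw [hc i]
    have hV : ∀ i j, mulHeight₁ ((cVan f e).transpose i j) ≤ g2 D s := by
      intro i j
      rw [Matrix.transpose_apply, cVan, Matrix.of_apply]
      exact entry_height D s hW _ (hrootH _ (Multiset.mem_toFinset.1 j.1.2)) _ _
        (by have := (e i).2; omega)
    have he2 : (1 : ℝ) ≤ g2 D s := by exact_mod_cast g2_pos D s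
    have hcI : Fintype.card (Ix f) ≤ D := by rw [card_Ix f hs, hdf]; exact hd
    refine (mulHeight₁_mul_le _ _).trans ?_
    rw [mulHeight₁_inv]
    have hb : ∀ (M : Matrix (Ix f) (Ix f) K), (∀ i j, mulHeight₁ (M i j) ≤ g2 D s) →
        mulHeight₁ M.det ≤ (g3 D s : ℝ) := by
      intro M hM
      refine (height_det_le M (g2 D s : ℝ) he2 hM D hW hcI).trans (le_of_eq ?_)
      rw [g3]; push_cast; rfl
    refine mul_le_mul (hb _ hV) (hb _ fun a b => ?_) (mulHeight₁_nonneg _) (by positivity)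
    rw [Matrix.updateCol_apply]
    split_ifs with h
    · have h1 := height_int_le (K := K) (u (e a)) (s + 1) D (by omega)
        ((hu _ (by have := (e a).2; omega)).trans (by push_cast; omega)) hW
      refine h1.trans ?_
      have h2 : (s + 1) ^ D ≤ g2 D s := by
        have h6 : (s + 1) ^ D ≤ ((s + 1) ^ D) ^ (D + 1) := Nat.le_self_pow (by omega) _
        have h3 : ((s + 1) ^ D) ^ (D + 1) ≤ g1 D s := Nat.le_mul_of_pos_left _ (by positivity)
        have h4 : g1 D s ≤ g1 D s ^ (D + 1) := Nat.le_self_pow (by omega) _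
        have h5 : g1 D s ^ (D + 1) ≤ g2 D s := Nat.le_mul_of_pos_left _ (by positivity)
        omega
      exact_mod_cast h2
    · exact hV a b
  set c' : K → ℕ → K := fun x k =>
    if h : x ∈ f.roots.toFinset ∧ k < f.roots.count x then c ⟨⟨x, h.1⟩, ⟨k, h.2⟩⟩ else 0 with hc'
  have hc'H : ∀ x k, mulHeight₁ (c' x k) ≤ (g3 D s : ℝ) * g3 D s := by
    intro x k
    rw [hc']
    dsimp only
    split_ifs with h
    · exact hcH _
    · rw [mulHeight₁_zero]
      have : 1 ≤ g3 D s * g3 D s := Nat.succ_le_iff.2 (Nat.mul_pos (g3_pos D s) (g3_pos D s))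
      exact_mod_cast this
  set T := f.roots.toFinset with hT
  set m : K → ℕ := fun x => f.roots.count x with hm
  have hL : ∀ F : K[X], tf T m c' F = ∑ i, c i * (taylor i.1.1 F).coeff i.2 := by
    intro F
    rw [tf_apply, Fintype.sum_sigma, ← Finset.sum_coe_sort T]
    refine Finset.sum_congr rfl fun x _ => ?_
    rw [← Fin.sum_univ_eq_sum_range (fun k => c' x.1 k * (taylor x.1 F).coeff k)]
    refine Finset.sum_congr rfl fun k _ => ?_
    rw [hc']
    dsimp only
    rw [dif_pos ⟨x.2, k.2⟩]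
  have hkill : ∀ n, tf T m c' (f * X ^ n) = 0 := by
    intro n
    refine tf_kill _ _ _ _ fun x _ => Dvd.dvd.mul_right ?_ _
    rw [hm]
    dsimp only
    rw [count_roots]
    exact pow_rootMultiplicity_dvd f x
  have hrep : ∀ n, tf T m c' (X ^ n) = (u n : K) := by
    refine lin_rep _ χ hχ u hA (fun j hj => ?_) hkill
    rw [hL]
    exact hcu j (by rw [hdf]; exact hj)
  set Q : K → K[X] := fun x => ∑ k ∈ range (m x),
    C (c' x k * (x ^ k)⁻¹ * ((k.factorial : ℕ) : K)⁻¹) * descPochhammer K k with hQ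
  have hQeval : ∀ x, x ≠ 0 → ∀ n : ℕ, (Q x).eval (n : K) * x ^ n =
      ∑ k ∈ range (m x), c' x k * (taylor x (X ^ n : K[X])).coeff k := by
    intro x hx n
    rw [hQ]
    dsimp only
    rw [eval_finsetSum, Finset.sum_mul]
    refine Finset.sum_congr rfl fun k _ => ?_
    rw [eval_mul, eval_C, descPochhammer_eval_eq_descFactorial,
      Nat.descFactorial_eq_factorial_mul_choose, taylor_coeff_X_pow]
    push_cast
    have hk0 : ((k.factorial : ℕ) : K) ≠ 0 := by exact_mod_cast k.factorial_ne_zero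
    rcases le_or_gt k n with hkn | hkn
    · have h1 : x ^ n = x ^ (n - k) * x ^ k := by rw [← pow_add, Nat.sub_add_cancel hkn]
      rw [h1]
      have hxk : x ^ k ≠ 0 := pow_ne_zero _ hx
      field_simp
    · rw [Nat.choose_eq_zero_of_lt hkn]; simp
  have hsum : ∀ T' : Finset K, (∀ x ∈ T', x ≠ 0) → ∀ n : ℕ, tf T' m c' (X ^ n) =
      ∑ x ∈ T', (Q x).eval (n : K) * x ^ n := by
    intro T' hT' n
    rw [tf_apply]
    exact Finset.sum_congr rfl fun x hx => (hQeval x (hT' x hx) n).symm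
  have hT0 : ∀ x ∈ T, x ≠ 0 := fun x hx => hroot0 x (Multiset.mem_toFinset.1 hx)
  refine ⟨Q, fun x => ?_, fun hsep x => ?_, fun x i => ?_, fun x hx => ?_, fun n => ?_⟩
  · -- degree
    refine natDegree_sum_le_of_forall_le _ _ fun k hk => ?_
    refine (natDegree_C_mul_le _ _).trans ?_
    rw [descPochhammer_natDegree]
    exact (Finset.mem_range.1 hk).le.trans (hcount x)
  · -- separable
    refine Nat.le_zero.1 (natDegree_sum_le_of_forall_le _ _ fun k hk => ?_)
    refine (natDegree_C_mul_le _ _).trans ?_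
    rw [descPochhammer_natDegree]
    have h1 : f.roots.count x ≤ 1 := Multiset.nodup_iff_count_le_one.1 (nodup_roots hsep) x
    have h2 : k < f.roots.count x := Finset.mem_range.1 hk
    omega
  · -- heights
    refine le_trans ?_ hgb
    rw [hQ]
    dsimp only
    rw [finsetSum_coeff]
    by_cases hm0 : m x = 0
    · rw [hm0, Finset.sum_range_zero, mulHeight₁_zero]
      exact_mod_cast gb_pos D s
    have hxr : x ∈ f.roots := by
      rw [hm] at hm0
      exact Multiset.count_ne_zero.1 hm0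
    have hmx : m x ≤ D := hcount x
    refine (mulHeight₁_sum_le (Finset.nonempty_range_iff.2 hm0) _).trans ?_
    have hterm : ∀ k ∈ range (m x), mulHeight₁ ((C (c' x k * (x ^ k)⁻¹ *
        ((k.factorial : ℕ) : K)⁻¹) * descPochhammer K k).coeff i) ≤ (g4 D s : ℝ) := by
      intro k hk
      have hks : k ≤ D := (Finset.mem_range.1 hk).le.trans hmx
      rw [coeff_C_mul]
      have he1 : (1 : ℝ) ≤ g1 D s := by exact_mod_cast g1_pos D s
      have h1 : mulHeight₁ ((x ^ k)⁻¹) ≤ (g1 D s : ℝ) ^ D := by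
        rw [mulHeight₁_inv, mulHeight₁_pow]
        exact (pow_le_pow_left₀ (mulHeight₁_nonneg _) (hrootH x hxr) _).trans
          (pow_le_pow_right₀ he1 hks)
      have h2 : mulHeight₁ (((k.factorial : ℕ) : K)⁻¹) ≤ (D.factorial : ℝ) ^ D := by
        rw [mulHeight₁_inv]
        have := height_int_le (K := K) (k.factorial : ℤ) D.factorial D D.factorial_pos
          (by rw [Nat.abs_cast]; exact_mod_cast Nat.factorial_le hks) hW
        push_cast at this
        exact this
      have h3 := descPoch_height (K := K) k i D hks hW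
      rw [g4]
      push_cast
      refine (mulHeight₁_mul_le _ _).trans (mul_le_mul ?_ h3 (mulHeight₁_nonneg _)
        (by positivity))
      refine (mulHeight₁_mul_le _ _).trans (mul_le_mul ?_ h2 (mulHeight₁_nonneg _)
        (by positivity))
      exact (mulHeight₁_mul_le _ _).trans (mul_le_mul (hc'H x k) h1 (mulHeight₁_nonneg _)
        (by positivity))
    have he4 : (1 : ℝ) ≤ g4 D s := by exact_mod_cast g4_pos D s
    rw [gb]
    push_cast
    refine mul_le_mul ?_ ?_ (Finset.prod_nonneg fun _ _ => mulHeight₁_nonneg _) (by positivity)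
    · rw [Finset.card_range]
      have h1 : (1 : ℝ) ≤ (D : ℝ) + 1 := by linarith [(Nat.cast_nonneg D : (0 : ℝ) ≤ D)]
      have h2 : ((m x : ℕ) : ℝ) ≤ (D : ℝ) + 1 := by
        have : ((m x : ℕ) : ℝ) ≤ D := by exact_mod_cast hmx
        linarith
      exact (pow_le_pow_left₀ (by positivity) h2 _).trans (pow_le_pow_right₀ h1 hW)
    · refine (Finset.prod_le_prod (fun _ _ => mulHeight₁_nonneg _) hterm).trans ?_
      rw [Finset.prod_const, Finset.card_range]
      exact pow_le_pow_right₀ he4 hmx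
  · -- roots
    refine le_trans ?_ hg1
    refine root_height D s hW χ hχ hd hcoef x ?_
    rw [IsRoot, eval_map]
    exact hx
  · rw [← hrep n, hsum T hT0 n]

end Pool.Agent.Work.MP_8d13b5_lc.Fg
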