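import Pool.Agent.Work.MP_8d13b5_lc.Fg.Stmts
import Pool.Agent.Work.MP_8d13b5_lc.Bd.B01

set_option autoImplicit false

/-!
# Item G4: heights of the values and size of the zeros of a polynomial
-/

namespace Pool.Agent.Work.MP_8d13b5_lc.Fg

open Height AdmissibleAbsValues Polynomial Finset NumberField
open Pool.Agent.Work.Tools.Subspace (NV nabv ne nN nO nU nnrm ClaimN)
open Pool.Agent.Work.MP_8d13b5_lc.Rk

namespace IG4

theorem le_pow_of_two_le (a : ℕ) {t : ℝ} (ht : 2 ≤ t) : (a : ℝ) ≤ t ^ a := by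
  have h1 : a < 2 ^ a := Nat.lt_two_pow_self
  have h2 : (a : ℝ) ≤ 2 ^ a := by exact_mod_cast h1.le
  exact h2.trans (pow_le_pow_left₀ (by norm_num) ht a)

theorem card_le (D W : ℕ) (hW : W ≤ D) {t : ℝ} (ht : 2 ≤ t) :
    ((D : ℝ) + 1) ^ W ≤ t ^ ((D + 1) * D) := by
  have h1 := le_pow_of_two_le (D + 1) ht
  push_cast at h1
  have h0 : (0 : ℝ) ≤ D := Nat.cast_nonneg D
  calc ((D : ℝ) + 1) ^ W ≤ ((D : ℝ) + 1) ^ D := pow_le_pow_right₀ (by linarith) hW
    _ ≤ (t ^ (D + 1)) ^ D := pow_le_pow_left₀ (by positivity) h1 D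
    _ = _ := by rw [pow_mul]

theorem height_nat {K : Type} [Field K] [NumberField K] {D : ℕ} (hW : totalWeight K ≤ D) (n : ℕ)
    {t : ℝ} (ht : (n : ℝ) + 1 ≤ t) : mulHeight₁ (n : K) ≤ t ^ D := by
  have h := height_intCast (K := K) (n : ℤ)
  have h0 : (0 : ℝ) ≤ n := Nat.cast_nonneg n
  have h1 : max 1 |((n : ℤ) : ℝ)| ≤ t := by
    rw [Int.cast_natCast, Nat.abs_cast]
    exact max_le (by linarith) (by linarith)
  have h2 : ((n : ℤ) : K) = (n : K) := Int.cast_natCast n
  rw [h2] at h
  refine h.trans ((pow_le_pow_left₀ (by positivity) h1 _).trans (pow_le_pow_right₀ (by linarith) hW))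

end IG4

open IG4 in
/-- G4: heights of the values and size of the zeros of a polynomial. -/
theorem prfG4 : ClaimG4 := by
  intro D
  refine ⟨(D + 1) * D + (1 + D * D) * (D + 1), ?_⟩
  intro K _ _ hK R b n hd hc
  have hW : totalWeight K ≤ D := by rw [NumberField.totalWeight_eq_finrank]; exact hK
  have hb : 1 ≤ b := (one_le_mulHeight₁ (R.coeff 0)).trans (hc 0)
  have hn0 : (0 : ℝ) ≤ n := Nat.cast_nonneg n
  constructor
  · set t : ℝ := ((n : ℝ) + 2) * b with ht
    have ht2 : 2 ≤ t := by nlinarith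
    have ht1 : 1 ≤ t := by linarith
    have hbt : b ≤ t := by nlinarith
    have hnt : (n : ℝ) + 1 ≤ t := by nlinarith
    have hnh : mulHeight₁ (n : K) ≤ t ^ D := height_nat hW n hnt
    rw [eval_eq_sum_range' (lt_of_le_of_lt hd (Nat.lt_succ_self D)) (n : K)]
    refine (mulHeight₁_sum_le (Finset.nonempty_range_iff.2 (Nat.succ_ne_zero D)) _).trans ?_
    have hfac : ∀ i ∈ range (D + 1), mulHeight₁ (R.coeff i * (n : K) ^ i) ≤ t ^ (1 + D * D) := by
      intro i hi
      rw [mem_range] at hi
      refine (mulHeight₁_mul_le _ _).trans ?_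
      rw [mulHeight₁_pow]
      calc mulHeight₁ (R.coeff i) * mulHeight₁ (n : K) ^ i ≤ t * (t ^ D) ^ D := by
            refine mul_le_mul ((hc i).trans hbt) ?_ (pow_nonneg (mulHeight₁_nonneg _) _)
              (by positivity)
            exact (pow_le_pow_left₀ (mulHeight₁_nonneg _) hnh i).trans
              (pow_le_pow_right₀ (one_le_pow₀ ht1) (by omega))
        _ = t ^ (1 + D * D) := by rw [← pow_mul, pow_add, pow_one]
    have hprod : ∏ i ∈ range (D + 1), mulHeight₁ (R.coeff i * (n : K) ^ i) ≤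
        (t ^ (1 + D * D)) ^ (D + 1) := by
      calc _ ≤ ∏ _i ∈ range (D + 1), t ^ (1 + D * D) :=
            Finset.prod_le_prod (fun i _ => mulHeight₁_nonneg _) hfac
        _ = _ := by rw [Finset.prod_const, card_range]
    have hcard : ((range (D + 1)).card : ℝ) ^ totalWeight K ≤ t ^ ((D + 1) * D) := by
      rw [card_range]
      have := card_le D (totalWeight K) hW ht2
      push_cast
      exact this
    calc _ ≤ t ^ ((D + 1) * D) * (t ^ (1 + D * D)) ^ (D + 1) :=
          mul_le_mul hcard hprod (Finset.prod_nonneg fun i _ => mulHeight₁_nonneg _)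
            (by positivity)
      _ = _ := by rw [← pow_mul, ← pow_add]
  · intro hR h0
    have h1 := height_root R hR (n : K) h0 b hc
    have h2b : (2 : ℝ) ≤ 2 * b := by linarith
    have hdR : (R.natDegree : ℝ) ≤ D := by exact_mod_cast hd
    obtain ⟨v⟩ : Nonempty (NumberField.InfinitePlace K) := inferInstance
    have hv : IsPlace v.val := Or.inl (NumberField.mem_multisetInfinitePlace.2 v.isInfinitePlace)
    have h3 := le_height hv (n : K)
    have h4 : v.val (n : K) = (n : ℝ) := NumberField.InfinitePlace.map_natCast v n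
    rw [h4] at h3
    calc (n : ℝ) ≤ mulHeight₁ (n : K) := h3
      _ ≤ (R.natDegree + 1) ^ totalWeight K * b ^ (R.natDegree + 1) := h1
      _ ≤ (2 * b) ^ ((D + 1) * D) * (2 * b) ^ ((1 + D * D) * (D + 1)) := by
          refine mul_le_mul ?_ ?_ (by positivity) (by positivity)
          · refine (pow_le_pow_left₀ (by positivity) (show (R.natDegree : ℝ) + 1 ≤ D + 1 by
              linarith) _).trans (card_le D (totalWeight K) hW h2b)
          · refine (pow_le_pow_left₀ (by positivity) (show b ≤ 2 * b by linarith) _).trans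
              (pow_le_pow_right₀ (by linarith) ?_)
            nlinarith
      _ = _ := by rw [← pow_add]

end Pool.Agent.Work.MP_8d13b5_lc.Fg
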