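import Pool.Agent.Work.MP_8d13b5_lc.Fg.Stmts
import Pool.Agent.Work.MP_8d13b5_lc.Bd.B04

set_option autoImplicit false

/-!
# Item G5: the zeros of the sequences with characteristic roots in `nU S`
-/

namespace Pool.Agent.Work.MP_8d13b5_lc.Fg

open Height AdmissibleAbsValues Polynomial Finset NumberField
open Pool.Agent.Work.Tools.Subspace (NV nabv ne nN nO nU nnrm ClaimN)
open Pool.Agent.Work.MP_8d13b5_lc.Rk

namespace IG5

/-- a linear function beats a logarithm -/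
theorem exists_N0 (A : ℝ) (hA : 0 ≤ A) : ∃ N0 : ℕ, ∀ n : ℕ, N0 ≤ n →
    A * (1 + 2 * Real.log ((n : ℝ) + 2)) < n := by
  have h1 := Real.isLittleO_log_id_atTop
  have hc : (0 : ℝ) < 1 / (4 * (A + 1)) := by positivity
  have h2 := (h1.def hc)
  obtain ⟨X, hX⟩ := Filter.eventually_atTop.mp h2
  refine ⟨max ⌈X⌉₊ (⌈2 * A + 2⌉₊ + 1), fun n hn => ?_⟩
  have hn1 : X ≤ (n : ℝ) + 2 := by
    have h3 : ((⌈X⌉₊ : ℕ) : ℝ) ≤ n := by exact_mod_cast (le_max_left _ _).trans hn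
    have := Nat.le_ceil X
    linarith
  have hn2 : 2 * A + 2 + 1 ≤ (n : ℝ) := by
    have h3 : ((⌈2 * A + 2⌉₊ + 1 : ℕ) : ℝ) ≤ n := by exact_mod_cast (le_max_right _ _).trans hn
    have h4 := Nat.le_ceil (2 * A + 2)
    push_cast at h3
    linarith
  have h5 := hX _ hn1
  simp only [id, Real.norm_eq_abs] at h5
  have h6 : Real.log ((n : ℝ) + 2) ≤ 1 / (4 * (A + 1)) * ((n : ℝ) + 2) := by
    have hp : (0 : ℝ) ≤ (n : ℝ) + 2 := by positivity
    rw [abs_of_nonneg hp] at h5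
    exact (le_abs_self _).trans h5
  have h7 : A * (2 * (1 / (4 * (A + 1)) * ((n : ℝ) + 2))) ≤ ((n : ℝ) + 2) / 2 := by
    have h8 : A * (2 * (1 / (4 * (A + 1)) * ((n : ℝ) + 2))) =
        (A / (A + 1)) * (((n : ℝ) + 2) / 2) := by
      field_simp
      ring
    rw [h8]
    have h9 : A / (A + 1) ≤ 1 := by
      rw [div_le_one (by linarith)]
      linarith
    have h10 : (0 : ℝ) ≤ ((n : ℝ) + 2) / 2 := by positivity
    nlinarith
  have h11 : A * (2 * Real.log ((n : ℝ) + 2)) ≤ A * (2 * (1 / (4 * (A + 1)) * ((n : ℝ) + 2))) := by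
    refine mul_le_mul_of_nonneg_left ?_ hA
    linarith
  nlinarith

theorem log_le (s : ℕ) : Real.log ((s : ℝ) + 2) ≤ ((Nat.log 2 (s + 2) + 1 : ℕ) : ℝ) := by
  have h1 : s + 2 < 2 ^ (Nat.log 2 (s + 2) + 1) := Nat.lt_pow_succ_log_self (by norm_num) _
  have h2 : ((s : ℝ) + 2) ≤ (2 : ℝ) ^ (Nat.log 2 (s + 2) + 1) := by exact_mod_cast h1.le
  have h3 := Real.log_le_log (by positivity) h2
  rw [Real.log_pow] at h3
  have h4 : Real.log 2 ≤ 1 := by
    have := Real.log_two_lt_d9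
    linarith
  have h5 : (0 : ℝ) ≤ ((Nat.log 2 (s + 2) + 1 : ℕ) : ℝ) := Nat.cast_nonneg _
  nlinarith

end IG5

open IG5 in
theorem prfG5 (h2 : ClaimG2') (h3 : ClaimG3) (h4 : ClaimG4) : ClaimG5 := by
  classical
  intro K _ _ S D
  obtain ⟨Bt, -, Ht⟩ := torsion_bound
  obtain ⟨W, hW⟩ : ∃ W, W = Module.finrank ℚ K := ⟨_, rfl⟩
  obtain ⟨D', hD'⟩ : ∃ D', D' = max D W := ⟨_, rfl⟩
  obtain ⟨M, hM⟩ : ∃ M, M = (Bt W).factorial := ⟨_, rfl⟩
  have hM0 : 0 < M := by rw [hM]; exact Nat.factorial_pos _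
  have htf : ∀ x : K, (∃ m : ℕ, 0 < m ∧ x ^ m = 1) → x ^ M = 1 := by
    intro x hx
    rw [hM]
    exact Ht W K hW.ge x hx
  obtain ⟨C3, H3⟩ := h3 D'
  obtain ⟨C4, H4⟩ := h4 D'
  obtain ⟨C2, hC2, H2⟩ := h2 K S D
  obtain ⟨C5, hC5⟩ : ∃ C5, C5 = D' * D' + (C3 * M + C3) * D' := ⟨_, rfl⟩
  obtain ⟨A, hA⟩ : ∃ A : ℝ, A = M * (C2 * (1 + C4 + C4 * C5) + 1) := ⟨_, rfl⟩
  have hA0 : 0 ≤ A := by rw [hA]; positivity
  obtain ⟨N0, hN0⟩ := exists_N0 A hA0
  obtain ⟨A2, hA2⟩ : ∃ A2 : ℝ, A2 = M * (C2 * (1 + C5) + 1) := ⟨_, rfl⟩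
  have hA20 : 0 ≤ A2 := by rw [hA2]; positivity
  obtain ⟨C, hC⟩ : ∃ C, C = (C5 + 1) * C4 + 1 + N0 + ⌈A2⌉₊ := ⟨_, rfl⟩
  refine ⟨M, C, hM0, ?_⟩
  intro s χ hχ hχ0 hdeg hcoef hsplit hroots u hu hann
  have hWD : Module.finrank ℚ K ≤ D' := by rw [← hW, hD']; exact le_max_right _ _
  have hDD : D ≤ D' := by rw [hD']; exact le_max_left _ _
  obtain ⟨Q, hQdeg, hQsep, hQH, hrootH, hQ⟩ := H3 s K hWD χ hχ hχ0 (hdeg.trans hDD) hcoef hsplit
    u hu hann
  obtain ⟨R, hR⟩ : ∃ R : Finset K, R = (χ.aroots K).toFinset := ⟨_, rfl⟩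
  have hQS : ∀ n : ℕ, ((u n : ℤ) : K) = ∑ x ∈ R, (Q x).eval (n : K) * x ^ n := by
    intro n
    rw [hQ n, hR]
  have hSroot : ∀ x ∈ R, aeval x χ = 0 := by
    intro x hx
    rw [hR, Multiset.mem_toFinset, mem_aroots] at hx
    exact hx.2
  have hScard : R.card ≤ D := by
    calc R.card ≤ (χ.aroots K).card := by rw [hR]; exact Multiset.toFinset_card_le _
      _ ≤ (χ.map (algebraMap ℤ K)).natDegree := card_roots' _
      _ ≤ χ.natDegree := natDegree_map_le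
      _ ≤ D := hdeg
  have hs2 : (1 : ℝ) ≤ (s : ℝ) + 2 := by
    have : (0 : ℝ) ≤ s := Nat.cast_nonneg _
    linarith
  have hs0 : (0 : ℝ) < (s : ℝ) + 2 := by linarith
  have htors : ∀ x y : K, x ≠ 0 → y ≠ 0 → x ^ M ≠ y ^ M → ∀ m : ℕ, 0 < m →
      (x ^ M / y ^ M) ^ m ≠ 1 := by
    intro x y hx hy hxy m hm h1
    apply hxy
    have h2 : (x / y) ^ M = 1 := htf (x / y) ⟨M * m, Nat.mul_pos hM0 hm, by
      rw [pow_mul, div_pow, h1]⟩
    rw [div_pow] at h2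
    exact (div_eq_one_iff_eq (pow_ne_zero _ hy)).1 h2
  -- facts about the active terms
  have hmem : ∀ j : ℕ, ∀ μ ∈ mrT R Q M j, ∃ x ∈ R, x ^ M = μ := by
    intro j μ hμ
    obtain ⟨_, x, hx, hxM, _⟩ := mr_mem R Q M j μ hμ
    exact ⟨x, hx, hxM⟩
  have hTcard : ∀ j : ℕ, (mrT R Q M j).card ≤ D := by
    intro j
    unfold mrT
    exact (card_filter_le _ _).trans (card_image_le.trans hScard)
  have hTU : ∀ j : ℕ, ∀ μ ∈ mrT R Q M j, μ ∈ nU S := by
    intro j μ hμ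
    obtain ⟨x, hx, rfl⟩ := hmem j μ hμ
    obtain ⟨hx0, hx1⟩ := hroots x (hSroot x hx)
    refine ⟨pow_ne_zero _ hx0, fun v hv => ?_⟩
    rw [map_pow, hx1 v hv, one_pow]
  have hTT : ∀ j : ℕ, ∀ μ ∈ mrT R Q M j, ∀ ν ∈ mrT R Q M j, μ ≠ ν → ∀ m : ℕ, 0 < m →
      (μ / ν) ^ m ≠ 1 := by
    intro j μ hμ ν hν hne
    obtain ⟨x, hx, rfl⟩ := hmem j μ hμ
    obtain ⟨y, hy, rfl⟩ := hmem j ν hν
    exact htors x y (hroots x (hSroot x hx)).1 (hroots y (hSroot y hy)).1 hne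
  have hmrH : ∀ j : ℕ, j ≤ M → ∀ μ i, mulHeight₁ ((mrR R Q M j μ).coeff i) ≤
      ((s : ℝ) + 2) ^ C5 := by
    intro j hj μ i
    refine (mr_height R Q M j D' (((s : ℝ) + 2) ^ C3) (((s : ℝ) + 2) ^ C3) (one_le_pow₀ hs2)
      (hScard.trans hDD) hWD hj (fun x hx => hrootH x (hSroot x hx)) hQH μ i).trans ?_
    have e1 : ((D' : ℝ) + 1) ^ D' ≤ ((s : ℝ) + 2) ^ (D' * D') := by
      rw [pow_mul]
      refine pow_le_pow_left₀ (by positivity) ?_ _
      have h5 : D' + 1 ≤ 2 ^ D' := Nat.lt_two_pow_self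
      have h6 : ((D' : ℝ) + 1) ≤ 2 ^ D' := by exact_mod_cast h5
      refine h6.trans (pow_le_pow_left₀ (by norm_num) ?_ _)
      have : (0 : ℝ) ≤ s := Nat.cast_nonneg _
      linarith
    rw [hC5, pow_add, pow_mul _ (C3 * M + C3), pow_add, pow_mul _ C3 M]
    exact mul_le_mul_of_nonneg_right e1 (by positivity)
  have hempty : ∀ j, mrT R Q M j = ∅ → ∀ k, u (j + k * M) = 0 := by
    intro j hj k
    have h1 := hQS (M * k + j)
    rw [mr_sum R Q M j k, hj, sum_empty] at h1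
    have h2 : u (M * k + j) = 0 := by exact_mod_cast h1
    rw [show j + k * M = M * k + j by ring]
    exact h2
  have hzero : ∀ n, u n = 0 → ∑ μ ∈ mrT R Q M (n % M),
      (mrR R Q M (n % M) μ).eval (n : K) * μ ^ (n / M) = 0 := by
    intro n hn
    have h1 := hQS (M * (n / M) + n % M)
    rw [mr_sum R Q M (n % M) (n / M), Nat.div_add_mod n M, hn, Int.cast_zero] at h1
    exact h1.symm
  have hnlt : ∀ n : ℕ, (n : ℝ) ≤ M * ((n / M : ℕ) : ℝ) + M := by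
    intro n
    have h1 : n ≤ M * (n / M) + M := by
      have := Nat.div_add_mod n M
      have := Nat.mod_lt n hM0
      omega
    exact_mod_cast h1
  have hMr : (0 : ℝ) ≤ M := Nat.cast_nonneg _
  refine ⟨fun n hn hun => ?_, fun hsep n hn hun => ?_⟩
  · -- the general case
    refine hempty _ ?_
    by_contra hT
    obtain ⟨μ0, hμ0⟩ := Finset.nonempty_iff_ne_empty.mpr hT
    have hz := hzero n hun
    have hCN : N0 ≤ n := by
      have e1 : C < 2 ^ C := Nat.lt_two_pow_self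
      have e2 : 2 ^ C ≤ (s + 2) ^ C := Nat.pow_le_pow_left (by omega) C
      have e3 : N0 ≤ C := by rw [hC]; omega
      omega
    by_cases hc : ∃ μ ∈ mrT R Q M (n % M), (mrR R Q M (n % M) μ).eval (n : K) ≠ 0
    · have hB : ∀ μ ∈ mrT R Q M (n % M), mulHeight₁ ((mrR R Q M (n % M) μ).eval (n : K)) ≤
          (((n : ℝ) + 2) * ((s : ℝ) + 2) ^ C5) ^ C4 := by
        intro μ _
        exact (H4 K hWD _ _ n (mr_natDegree R Q M (n % M) D' hQdeg μ)
          (hmrH _ (Nat.mod_lt n hM0).le μ)).1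
      have h5 := H2 (mrT R Q M (n % M)) (fun μ => (mrR R Q M (n % M) μ).eval (n : K))
        ((((n : ℝ) + 2) * ((s : ℝ) + 2) ^ C5) ^ C4) (hTcard _) (hTU _) (hTT _) hc hB (n / M) hz
      rw [Real.log_pow, Real.log_mul (by positivity) (by positivity), Real.log_pow] at h5
      have h6 := hN0 n hCN
      have hlogs : Real.log ((s : ℝ) + 2) ≤ Real.log ((n : ℝ) + 2) := by
        refine Real.log_le_log hs0 ?_
        have e1 : s + 2 ≤ (s + 2) ^ C := by
          refine Nat.le_self_pow ?_ _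
          rw [hC]; omega
        have e2 : s + 2 ≤ n := e1.trans hn
        have e3 : ((s : ℝ) + 2) ≤ n := by exact_mod_cast e2
        linarith
      have hl0 : 0 ≤ Real.log ((n : ℝ) + 2) := Real.log_nonneg (by
        have : (0 : ℝ) ≤ n := Nat.cast_nonneg _
        linarith)
      have h7 := hnlt n
      set l := Real.log ((n : ℝ) + 2) with hl
      set t := Real.log ((s : ℝ) + 2) with ht
      have h8 : C2 * (1 + C4 * (l + C5 * t)) ≤ C2 * ((1 + C4 + C4 * C5) * (1 + 2 * l)) := by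
        refine mul_le_mul_of_nonneg_left ?_ hC2
        have c4 : (0 : ℝ) ≤ C4 := Nat.cast_nonneg _
        have c5 : (0 : ℝ) ≤ C5 := Nat.cast_nonneg _
        have c45 : (0 : ℝ) ≤ C4 * C5 := by positivity
        have k1 : (C4 : ℝ) * C5 * t ≤ C4 * C5 * l := mul_le_mul_of_nonneg_left hlogs c45
        nlinarith [mul_nonneg c4 hl0, mul_nonneg c45 hl0]
      have h9 : (n : ℝ) ≤ A * (1 + 2 * l) := by
        rw [hA]
        have k2 : (M : ℝ) * ((n / M : ℕ) : ℝ) ≤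
            M * (C2 * ((1 + C4 + C4 * C5) * (1 + 2 * l))) :=
          mul_le_mul_of_nonneg_left (h5.trans h8) hMr
        nlinarith [mul_nonneg hMr hl0]
      linarith
    · push Not at hc
      have h5 := (H4 K hWD _ _ n (mr_natDegree R Q M (n % M) D' hQdeg μ0)
          (hmrH _ (Nat.mod_lt n hM0).le μ0)).2 (mr_mem R Q M _ μ0 hμ0).1 (hc μ0 hμ0)
      have h6 : (2 * ((s : ℝ) + 2) ^ C5) ^ C4 ≤ ((s : ℝ) + 2) ^ ((C5 + 1) * C4) := by
        rw [pow_mul]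
        refine pow_le_pow_left₀ (by positivity) ?_ _
        rw [pow_succ']
        refine mul_le_mul_of_nonneg_right ?_ (by positivity)
        have : (0 : ℝ) ≤ s := Nat.cast_nonneg _
        linarith
      have h7 : (s + 2) ^ ((C5 + 1) * C4) < (s + 2) ^ C := by
        refine Nat.pow_lt_pow_right (by omega) ?_
        rw [hC]; omega
      have h8 : (n : ℝ) ≤ (((s + 2) ^ ((C5 + 1) * C4) : ℕ) : ℝ) := by
        push_cast
        exact h5.trans h6
      have h9 : n ≤ (s + 2) ^ ((C5 + 1) * C4) := by exact_mod_cast h8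
      omega
  · -- the separable case
    refine hempty _ ?_
    by_contra hT
    obtain ⟨μ0, hμ0⟩ := Finset.nonempty_iff_ne_empty.mpr hT
    have hz := hzero n hun
    have hdeg0 : ∀ μ, (mrR R Q M (n % M) μ).natDegree = 0 := by
      intro μ
      exact Nat.le_zero.mp (mr_natDegree R Q M (n % M) 0 (fun x => (hQsep hsep x).le) μ)
    have hev : ∀ μ, (mrR R Q M (n % M) μ).eval (n : K) = (mrR R Q M (n % M) μ).coeff 0 := by
      intro μ
      conv_lhs => rw [eq_C_of_natDegree_eq_zero (hdeg0 μ)]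
      rw [eval_C]
    have hc : ∃ μ ∈ mrT R Q M (n % M), (mrR R Q M (n % M) μ).eval (n : K) ≠ 0 := by
      refine ⟨μ0, hμ0, fun h => (mr_mem R Q M _ μ0 hμ0).1 ?_⟩
      rw [eq_C_of_natDegree_eq_zero (hdeg0 μ0), ← hev μ0, h, map_zero]
    have h5 := H2 (mrT R Q M (n % M)) (fun μ => (mrR R Q M (n % M) μ).eval (n : K))
      (((s : ℝ) + 2) ^ C5) (hTcard _) (hTU _) (hTT _) hc (by
        intro μ _
        simp only [hev]
        exact hmrH _ (Nat.mod_lt n hM0).le μ 0) (n / M) hz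
    rw [Real.log_pow] at h5
    have h6 := log_le s
    set t := Real.log ((s : ℝ) + 2) with ht
    set L := ((Nat.log 2 (s + 2) + 1 : ℕ) : ℝ) with hL
    have hL1 : (1 : ℝ) ≤ L := by
      rw [hL]
      push_cast
      have : (0 : ℝ) ≤ (Nat.log 2 (s + 2) : ℝ) := Nat.cast_nonneg _
      linarith
    have h7 := hnlt n
    have c5 : (0 : ℝ) ≤ C5 := Nat.cast_nonneg _
    have h8 : C2 * (1 + C5 * t) ≤ C2 * ((1 + C5) * L) := by
      refine mul_le_mul_of_nonneg_left ?_ hC2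
      nlinarith [mul_le_mul_of_nonneg_left h6 c5]
    have h9 : (n : ℝ) ≤ A2 * L := by
      rw [hA2]
      have k2 : (M : ℝ) * ((n / M : ℕ) : ℝ) ≤ M * (C2 * ((1 + C5) * L)) :=
        mul_le_mul_of_nonneg_left (h5.trans h8) hMr
      nlinarith
    have h10 : (C : ℝ) * L ≤ n := by
      rw [hL]
      exact_mod_cast hn
    have h11 : A2 + 1 ≤ (C : ℝ) := by
      have k1 := Nat.le_ceil A2
      rw [hC]
      push_cast
      have k2 : (0 : ℝ) ≤ ((C5 : ℝ) + 1) * C4 := by positivity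
      have k3 : (0 : ℝ) ≤ (N0 : ℝ) := Nat.cast_nonneg _
      linarith
    nlinarith

end Pool.Agent.Work.MP_8d13b5_lc.Fg
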