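import Pool.Agent.Work.MP_8d13b5_lc.Fg.Stmts

set_option autoImplicit false

/-!
# Item G6: from complex numbers to `S`-units
-/

namespace Pool.Agent.Work.MP_8d13b5_lc.Fg

open Height AdmissibleAbsValues Polynomial Finset NumberField
open Pool.Agent.Work.Tools.Subspace (NV nabv ne nN nO nU nnrm ClaimN)
open Pool.Agent.Work.MP_8d13b5_lc.Rk

/-- G6: a finitely generated group of algebraic numbers consists of `S`-units of a number field -/
theorem prfG6 : ClaimG6 := by
  intro r g hg
  classical
  set L : IntermediateField ℚ ℂ := IntermediateField.adjoin ℚ (Set.range g) with hL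
  have hfin : FiniteDimensional ℚ L := by
    refine IntermediateField.finiteDimensional_adjoin ?_
    rintro x ⟨i, rfl⟩
    exact (hg i).2.isIntegral
  have : NumberField L := { to_charZero := inferInstance, to_finiteDimensional := hfin }
  have hmem : ∀ i, g i ∈ L := fun i => IntermediateField.subset_adjoin ℚ _ ⟨i, rfl⟩
  set g' : Fin r → L := fun i => ⟨g i, hmem i⟩ with hg'
  have hg'0 : ∀ i, g' i ≠ 0 := fun i h => (hg i).1 (congrArg Subtype.val h)
  have hSfin : (⋃ i, Function.mulSupport fun v : FinitePlace L => v (g' i)).Finite :=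
    Set.finite_iUnion fun i => FinitePlace.hasFiniteMulSupport (hg'0 i)
  refine ⟨L, inferInstance, inferInstance, hSfin.toFinset, ?_⟩
  intro χ hχ hroots
  have hv : ∀ (v : FinitePlace L), v ∉ hSfin.toFinset → ∀ i, v (g' i) = 1 := by
    intro v hv i
    by_contra h
    apply hv
    rw [Set.Finite.mem_toFinset]
    exact Set.mem_iUnion.mpr ⟨i, h⟩
  constructor
  · refine Splits.of_splits_map (algebraMap L ℂ) (IsAlgClosed.splits _) fun z hz => ?_
    have h1 : aeval z χ = 0 := by
      have h2 := (Polynomial.mem_roots'.mp hz).2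
      have h3 : (algebraMap L ℂ).comp (algebraMap ℤ L) = algebraMap ℤ ℂ := RingHom.ext_int _ _
      rw [IsRoot.def, Polynomial.map_map, eval_map, h3] at h2
      exact h2
    obtain ⟨a, ha⟩ := hroots z h1
    refine ⟨∏ i, g' i ^ a i, ?_⟩
    rw [ha, map_prod]
    refine Finset.prod_congr rfl fun i _ => ?_
    rw [map_zpow₀]
    rfl
  · intro x hx
    have h1 : aeval (x : ℂ) χ = 0 := by
      have := congrArg (algebraMap L ℂ) hx
      rw [map_zero, ← aeval_algebraMap_apply] at this
      exact this
    obtain ⟨a, ha⟩ := hroots _ h1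
    have hx' : x = ∏ i, g' i ^ a i := by
      apply Subtype.ext
      rw [ha]
      change _ = algebraMap L ℂ _
      rw [map_prod]
      refine Finset.prod_congr rfl fun i _ => ?_
      rw [map_zpow₀]
      rfl
    refine ⟨?_, fun v hvS => ?_⟩
    · rw [hx']
      exact Finset.prod_ne_zero_iff.mpr fun i _ => zpow_ne_zero _ (hg'0 i)
    · rw [hx', map_prod]
      refine Finset.prod_eq_one fun i _ => ?_
      rw [map_zpow₀, hv v hvS i, one_zpow]

end Pool.Agent.Work.MP_8d13b5_lc.Fg
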