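import Pool.Agent.Work.MP_8d13b5_lc.Fg.Stmts
import Pool.Agent.Work.MP_8d13b5_lc.Bd.B04

set_option autoImplicit false

/-!
# Gap for the heights of numbers that are not roots of unity
-/

namespace Pool.Agent.Work.MP_8d13b5_lc.Fg

open Height

theorem prfH : ClaimH := by
  intro K _ _
  obtain ⟨B, -, hB⟩ := Pool.Agent.Work.MP_8d13b5_lc.Rk.height_gap
  refine ⟨Real.log 2 / (B (Module.finrank ℚ K) + 1), by positivity, fun x hx hx2 => ?_⟩
  have h1 := hB (Module.finrank ℚ K) K le_rfl x hx hx2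
  have h2 := Real.log_le_log (by norm_num) h1
  rw [Real.log_pow] at h2
  have h3 : 0 ≤ Real.log (mulHeight₁ x) := Real.log_nonneg (one_le_mulHeight₁ x)
  rw [div_le_iff₀ (by positivity)]
  linarith

end Pool.Agent.Work.MP_8d13b5_lc.Fg
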