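import Pool.Agent.Work.Tools.Subspace.All
import Pool.Agent.Work.MP_8d13b5_lc.Rk.Code
import Pool.Agent.Work.MP_8d13b5_lc.Fg.ItemG1
import Pool.Agent.Work.MP_8d13b5_lc.Fg.ItemG2
import Pool.Agent.Work.MP_8d13b5_lc.Fg.ItemG2p
import Pool.Agent.Work.MP_8d13b5_lc.Fg.ItemG3
import Pool.Agent.Work.MP_8d13b5_lc.Fg.ItemG4
import Pool.Agent.Work.MP_8d13b5_lc.Fg.ItemG5
import Pool.Agent.Work.MP_8d13b5_lc.Fg.ItemG6
import Pool.Agent.Work.MP_8d13b5_lc.Fg.ItemH

set_option autoImplicit false

namespace Pool.Agent.Results.MP_8d13b5_lc.FixedGroup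

open Pool.Agent.Work.MP_8d13b5_lc Pool.Agent.Work.MP_8d13b5_lc.US
  Pool.Agent.Work.MP_8d13b5_lc.Rk Pool.Agent.Work.MP_8d13b5_lc.Fg Polynomial Finset NumberField

/-- `u` is the sequence with data `p = ((c_1, ..., c_d), (u_0, ..., u_(d-1)))`:
`d ≥ 1`, `c_d ≠ 0` and `u_(n+d) = c_1 u_(n+d-1) + ... + c_d u_n` -/
def IsSeq (p : List ℤ × List ℤ) (u : ℕ → ℤ) : Prop :=
  p.1.length = p.2.length ∧ 1 ≤ p.1.length ∧ p.1.getD (p.1.length - 1) 0 ≠ 0 ∧
    (∀ i, i < p.1.length → u i = p.2.getD i 0) ∧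
    ∀ n : ℕ, u (n + p.1.length) =
      ∑ j ∈ Finset.range p.1.length, p.1.getD j 0 * u (n + p.1.length - 1 - j)

/-- `z` is a characteristic root: `z ^ d = c_1 z ^ (d - 1) + ... + c_d` -/
def IsRoot (c : List ℤ) (z : ℂ) : Prop :=
  z ^ c.length = ∑ j ∈ Finset.range c.length, ((c.getD j 0 : ℤ) : ℂ) * z ^ (c.length - 1 - j)

/-- there are `d` different characteristic roots -/
def Simple (c : List ℤ) : Prop := ∃ S : Finset ℂ, S.card = c.length ∧ ∀ z ∈ S, IsRoot c z

/-- the order plus the absolute values of all entries of the data -/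
def size (p : List ℤ × List ℤ) : ℕ :=
  p.1.length + (p.1.map Int.natAbs).sum + (p.2.map Int.natAbs).sum

theorem aeval_charPoly (c : List ℤ) (z : ℂ) : aeval z (charPoly c) = 0 ↔ IsRoot c z := by
  have h : aeval z (charPoly c) = z ^ c.length -
      ∑ j ∈ Finset.range c.length, ((c.getD j 0 : ℤ) : ℂ) * z ^ (c.length - 1 - j) := by
    unfold charPoly
    rw [map_sub, map_pow, aeval_X, map_sum]
    congr 1
    rw [← Finset.sum_range_reflect]
    refine Finset.sum_congr rfl fun j hj => ?_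
    rw [Finset.mem_range] at hj
    rw [map_mul, map_pow, aeval_X, aeval_C]
    have e : c.length - 1 - (c.length - 1 - j) = j := by omega
    rw [e]
    simp
  rw [h, IsRoot, sub_eq_zero]

theorem separable_of_simple (c : List ℤ) (hc : Simple c) {K : Type} [Field K] [NumberField K] :
    ((charPoly c).map (algebraMap ℤ K)).Separable := by
  obtain ⟨S, hS, hr⟩ := hc
  have hC : ((charPoly c).map (algebraMap ℤ ℂ)).Separable := by
    have hm : ((charPoly c).map (algebraMap ℤ ℂ)).Monic := (charPoly_monic c).map _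
    have hd : ((charPoly c).map (algebraMap ℤ ℂ)).natDegree = c.length := by
      rw [(charPoly_monic c).natDegree_map, charPoly_natDegree]
    have hsub : S.val ≤ ((charPoly c).map (algebraMap ℤ ℂ)).roots := by
      rw [Finset.val_le_iff_val_subset]
      intro z hz
      rw [mem_roots hm.ne_zero, Polynomial.IsRoot.def, eval_map_algebraMap]
      exact (aeval_charPoly c z).2 (hr z hz)
    have heq : S.val = ((charPoly c).map (algebraMap ℤ ℂ)).roots := by
      refine Multiset.eq_of_le_of_card_le hsub ?_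
      refine (card_roots' _).trans ?_
      rw [hd]
      exact hS.ge
    have hspl : ((charPoly c).map (algebraMap ℤ ℂ)).Splits := IsAlgClosed.splits _
    rw [← nodup_roots_iff_of_splits hm.ne_zero hspl, ← heq]
    exact S.nodup
  have hQ : ((charPoly c).map (algebraMap ℤ ℚ)).Separable := by
    have e : (charPoly c).map (algebraMap ℤ ℂ) =
        ((charPoly c).map (algebraMap ℤ ℚ)).map (algebraMap ℚ ℂ) := by
      rw [Polynomial.map_map]
      congr 1
    rw [e] at hC
    exact (Polynomial.separable_map _).1 hC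
  have e : (charPoly c).map (algebraMap ℤ K) =
      ((charPoly c).map (algebraMap ℤ ℚ)).map (algebraMap ℚ K) := by
    rw [Polynomial.map_map]
    congr 1
    exact RingHom.ext_int _ _
  rw [e]
  exact (Polynomial.separable_map _).2 hQ

/-- the bounds for the group generated by `g` -/
theorem bounds (r : ℕ) (g : Fin r → ℂ) (hg : ∀ i, g i ≠ 0 ∧ IsAlgebraic ℚ (g i)) (D : ℕ) :
    ∃ M C : ℕ, 0 < M ∧ ∀ (p : List ℤ × List ℤ) (u : ℕ → ℤ), IsSeq p u → p.1.length ≤ D →
      (∀ z : ℂ, IsRoot p.1 z → ∃ a : Fin r → ℤ, z = ∏ i, g i ^ a i) →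
        (∀ n, (size p + 2) ^ C ≤ n → u n = 0 → ∀ k, u (n % M + k * M) = 0) ∧
        (Simple p.1 → ∀ n, C * (Nat.log 2 (size p + 2) + 1) ≤ n → u n = 0 →
          ∀ k, u (n % M + k * M) = 0) := by
  obtain ⟨K, iF, iN, S, hS⟩ := prfG6 r g hg
  obtain ⟨M, C, hM, H⟩ := prfG5 (prfG2p (prfG2 prfH (prfG1
    Pool.Agent.Work.Tools.Subspace.subspaceN))) prfG3 prfG4 K S D
  refine ⟨M, C, hM, fun p u ⟨h1, h2, h3, hu1, hu2⟩ hD hroots => ?_⟩
  obtain ⟨hspl, hunit⟩ := hS (charPoly p.1) (charPoly_monic p.1)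
    (fun z hz => hroots z ((aeval_charPoly p.1 z).1 hz))
  have c0 : (charPoly p.1).coeff 0 ≠ 0 := by
    rw [charPoly_coeff, if_neg (by omega), if_pos (by omega), Nat.sub_zero, zero_sub]
    exact neg_ne_zero.2 h3
  have hsz : size p = Rk.size p := rfl
  have cu : ∀ i < (charPoly p.1).natDegree, |u i| ≤ (size p : ℤ) := by
    intro i hi
    rw [charPoly_natDegree] at hi
    rw [hu1 i hi, Int.abs_eq_natAbs]
    have h4 := natAbs_getD_le p.2 i
    have h5 : (p.2.getD i 0).natAbs ≤ size p := by unfold size; omega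
    exact_mod_cast h5
  have hK := H (size p) (charPoly p.1) (charPoly_monic _) c0 (by rw [charPoly_natDegree]; exact hD)
    (charPoly_coeff_le p h2) hspl hunit u cu (annih_charPoly p.1 u hu2)
  exact ⟨hK.1, fun hs => hK.2 (separable_of_simple p.1 hs)⟩

theorem primrec_pow_const (C : ℕ) : Primrec (fun x : ℕ => x ^ C) := by
  induction C with
  | zero => exact (Primrec.const 1).of_eq fun x => by simp
  | succ C ih =>
    exact (Primrec.nat_mul.comp ih Primrec.id).of_eq fun x => by rw [pow_succ]; rfl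

/-- decision procedure from the bound -/
theorem decide_of_bound (P : List ℤ × List ℤ → Prop) (M C : ℕ) (hM : 0 < M)
    (h : ∀ (p : List ℤ × List ℤ) (u : ℕ → ℤ), IsSeq p u → P p →
      ∀ n, (size p + 2) ^ C ≤ n → u n = 0 → ∀ k, u (n % M + k * M) = 0) :
    ∃ A : List ℤ × List ℤ → Bool, Primrec A ∧
      ∀ (p : List ℤ × List ℤ) (u : ℕ → ℤ), IsSeq p u → P p → (A p = true ↔ ∃ n, u n = 0) := by
  classical
  have hN : Primrec (fun p : List ℤ × List ℤ => (Rk.size p + 2) ^ C + M) :=
    Primrec.nat_add.comp ((primrec_pow_const C).comp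
      (Primrec.nat_add.comp primrec_size (Primrec.const 2))) (Primrec.const M)
  refine ⟨fun p => decide (∃ n < (Rk.size p + 2) ^ C + M, val p n = 0), ?_, ?_⟩
  · have hR : PrimrecRel (fun (m : ℕ) (p : Code) => val p m = 0) :=
      Primrec.eq.comp (primrec_val.comp Primrec.snd Primrec.fst) (Primrec.const 0)
    exact ((rel_exists_lt hR).comp hN Primrec.id).decide.of_eq fun p => by simp
  · intro p u hpu hP
    have hpu' := hpu
    obtain ⟨h1, h2, h3, hu1, hu2⟩ := hpu
    have huv : u = val p := funext (eq_val p ⟨h1, h2, h3⟩ u hu1 hu2)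
    rw [decide_eq_true_eq]
    constructor
    · rintro ⟨n, _, hn⟩
      exact ⟨n, by rw [huv]; exact hn⟩
    · rintro ⟨n, hn⟩
      by_cases hlt : n < (Rk.size p + 2) ^ C + M
      · exact ⟨n, hlt, by rw [← huv]; exact hn⟩
      · have hle : (size p + 2) ^ C ≤ n := by
          have : size p = Rk.size p := rfl
          rw [this]
          omega
        refine ⟨n % M, ?_, ?_⟩
        · have := Nat.mod_lt n hM
          omega
        · have h4 := h p u hpu' hP n hle hn 0
          rw [zero_mul, add_zero] at h4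
          rw [← huv]
          exact h4

/-- the numerical passage from the size of the data to the size of the initial values -/
theorem size_num (C L : ℕ) : ∃ C' : ℕ, ∀ x : ℕ, (L + x + 2) ^ C ≤ (x + 2) ^ C' ∧
    C * (Nat.log 2 (L + x + 2) + 1) ≤ C' * (Nat.log 2 (x + 2) + 1) := by
  refine ⟨(L + 1) * C, fun x => ?_⟩
  have h1 : L + x + 2 ≤ (x + 2) ^ (L + 1) := by
    have h2 : L + 1 ≤ 2 ^ L := Nat.lt_two_pow_self
    have h3 : 2 ^ L ≤ (x + 2) ^ L := Nat.pow_le_pow_left (by omega) L
    calc L + x + 2 ≤ (L + 1) * (x + 2) := by nlinarith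
      _ ≤ (x + 2) ^ L * (x + 2) := Nat.mul_le_mul_right _ (h2.trans h3)
      _ = (x + 2) ^ (L + 1) := (pow_succ _ _).symm
  constructor
  · calc (L + x + 2) ^ C ≤ ((x + 2) ^ (L + 1)) ^ C := Nat.pow_le_pow_left h1 C
      _ = (x + 2) ^ ((L + 1) * C) := (pow_mul _ _ _).symm
  · have h2 : Nat.log 2 (L + x + 2) + 1 ≤ (L + 1) * (Nat.log 2 (x + 2) + 1) := by
      have h3 : L + x + 2 < 2 ^ ((L + 1) * (Nat.log 2 (x + 2) + 1)) := by
        calc L + x + 2 ≤ (x + 2) ^ (L + 1) := h1
          _ < (2 ^ (Nat.log 2 (x + 2) + 1)) ^ (L + 1) :=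
              Nat.pow_lt_pow_left (Nat.lt_pow_succ_log_self (by norm_num) _) (by omega)
          _ = 2 ^ ((L + 1) * (Nat.log 2 (x + 2) + 1)) := by rw [← pow_mul, mul_comm]
      exact Nat.succ_le_of_lt (Nat.log_lt_of_lt_pow (by omega) h3)
    calc C * (Nat.log 2 (L + x + 2) + 1) ≤ C * ((L + 1) * (Nat.log 2 (x + 2) + 1)) :=
          Nat.mul_le_mul_left _ h2
      _ = (L + 1) * C * (Nat.log 2 (x + 2) + 1) := by ring

/-- **The Skolem Problem with characteristic roots in a fixed finitely generated group.**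

Let `g_1, ..., g_r` be nonzero algebraic numbers and `D` a natural number. There are `M ≥ 1`
and `C` such that for every integer linear recurrence sequence `u` of order at most `D` all of
whose characteristic roots are products of integer powers of the `g_i`, with data of size `s`
(order plus absolute values of all coefficients and initial values), `u` vanishes on the whole
class modulo `M` of each of its zeros `n ≥ (s + 2) ^ C`, and of each of its zeros
`n ≥ C (log_2 (s + 2) + 1)` if the characteristic roots are simple; and there is an algorithm (a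
primitive recursive one) which decides for all these sequences whether they have a zero. -/
theorem result (r : ℕ) (g : Fin r → ℂ) (hg : ∀ i, g i ≠ 0 ∧ IsAlgebraic ℚ (g i)) (D : ℕ) :
    ∃ M C : ℕ, 0 < M ∧
      (∀ (p : List ℤ × List ℤ) (u : ℕ → ℤ), IsSeq p u → p.1.length ≤ D →
        (∀ z : ℂ, IsRoot p.1 z → ∃ a : Fin r → ℤ, z = ∏ i, g i ^ a i) →
          (∀ n, (size p + 2) ^ C ≤ n → u n = 0 → ∀ k, u (n % M + k * M) = 0) ∧
          (Simple p.1 → ∀ n, C * (Nat.log 2 (size p + 2) + 1) ≤ n → u n = 0 →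
            ∀ k, u (n % M + k * M) = 0)) ∧
      ∃ A : List ℤ × List ℤ → Bool, Primrec A ∧
        ∀ (p : List ℤ × List ℤ) (u : ℕ → ℤ), IsSeq p u → p.1.length ≤ D →
          (∀ z : ℂ, IsRoot p.1 z → ∃ a : Fin r → ℤ, z = ∏ i, g i ^ a i) →
            (A p = true ↔ ∃ n, u n = 0) := by
  obtain ⟨M, C, hM, H⟩ := bounds r g hg D
  refine ⟨M, C, hM, H, ?_⟩
  obtain ⟨A, hA, hA2⟩ := decide_of_bound (fun p => p.1.length ≤ D ∧
    ∀ z : ℂ, IsRoot p.1 z → ∃ a : Fin r → ℤ, z = ∏ i, g i ^ a i) M C hM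
    (fun p u hpu hP => (H p u hpu hP.1 hP.2).1)
  exact ⟨A, hA, fun p u hpu h1 h2 => hA2 p u hpu ⟨h1, h2⟩⟩

/-- In particular for every fixed recurrence there is an algorithm which decides for arbitrary
initial values whether the sequence has a zero, and the zeros outside the full progressions are
bounded by a power of the size of the initial values, for simple recurrences by a multiple of its
logarithm. -/
theorem fixed_recurrence (c : List ℤ) : ∃ M C : ℕ, 0 < M ∧
      (∀ (w : List ℤ) (u : ℕ → ℤ), IsSeq (c, w) u →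
        (∀ n, ((w.map Int.natAbs).sum + 2) ^ C ≤ n → u n = 0 → ∀ k, u (n % M + k * M) = 0) ∧
        (Simple c → ∀ n, C * (Nat.log 2 ((w.map Int.natAbs).sum + 2) + 1) ≤ n → u n = 0 →
          ∀ k, u (n % M + k * M) = 0)) ∧
      ∃ A : List ℤ → Bool, Primrec A ∧ ∀ (w : List ℤ) (u : ℕ → ℤ), IsSeq (c, w) u →
        (A w = true ↔ ∃ n, u n = 0) := by
  by_cases hc : c.getD (c.length - 1) 0 = 0
  · refine ⟨1, 0, one_pos, fun w u hu => absurd hc hu.2.2.1, fun _ => true, Primrec.const true,
      fun w u hu => absurd hc hu.2.2.1⟩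
  -- the characteristic roots
  have hm : ((charPoly c).map (algebraMap ℤ ℂ)).Monic := (charPoly_monic c).map _
  set R : Finset ℂ := ((charPoly c).map (algebraMap ℤ ℂ)).roots.toFinset with hR
  have hmem : ∀ z : ℂ, z ∈ R ↔ aeval z (charPoly c) = 0 := by
    intro z
    rw [hR, Multiset.mem_toFinset, mem_roots hm.ne_zero, Polynomial.IsRoot.def,
      eval_map_algebraMap]
  set e : Fin R.card ≃ R := R.equivFin.symm with he
  have hg : ∀ i, ((e i : R) : ℂ) ≠ 0 ∧ IsAlgebraic ℚ ((e i : R) : ℂ) := by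
    intro i
    have h1 := (hmem _).1 (e i).2
    constructor
    · intro h0
      by_cases hl : c.length = 0
      · have hroot := (aeval_charPoly c _).1 h1
        rw [IsRoot, hl] at hroot
        simp at hroot
      · rw [h0, ← coeff_zero_eq_aeval_zero', charPoly_coeff, if_neg (by omega),
          if_pos (by omega), Nat.sub_zero, zero_sub] at h1
        have h2 : (c.getD (c.length - 1) 0) = 0 := by
          have := (algebraMap ℤ ℂ).injective_int (h1.trans (map_zero _).symm)
          exact neg_eq_zero.1 this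
        exact hc h2
    · have h3 : IsAlgebraic ℤ ((e i : R) : ℂ) := ⟨charPoly c, (charPoly_monic c).ne_zero, h1⟩
      exact h3.extendScalars (algebraMap ℤ ℚ).injective_int
  have hroots : ∀ z : ℂ, IsRoot c z → ∃ a : Fin R.card → ℤ, z = ∏ i, ((e i : R) : ℂ) ^ a i := by
    intro z hz
    have hzR : z ∈ R := (hmem z).2 ((aeval_charPoly c z).2 hz)
    refine ⟨fun i => if i = e.symm ⟨z, hzR⟩ then 1 else 0, ?_⟩
    rw [Finset.prod_eq_single (e.symm ⟨z, hzR⟩)]
    · simp
    · intro i _ hi
      simp [hi]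
    · intro h
      exact absurd (Finset.mem_univ _) h
  obtain ⟨M, C, hM, H, A, hA, hA2⟩ := result R.card (fun i => ((e i : R) : ℂ)) hg c.length
  obtain ⟨C', hC'⟩ := size_num C (c.length + (c.map Int.natAbs).sum)
  refine ⟨M, C', hM, fun w u hu => ?_, fun w => A (c, w), ?_, fun w u hu => ?_⟩
  · have hs : size (c, w) = c.length + (c.map Int.natAbs).sum + (w.map Int.natAbs).sum := rfl
    obtain ⟨H1, H2⟩ := H (c, w) u hu le_rfl hroots
    obtain ⟨e1, e2⟩ := hC' (w.map Int.natAbs).sum
    rw [← hs] at e1 e2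
    exact ⟨fun n hn => H1 n (e1.trans hn), fun hsim n hn => H2 hsim n (e2.trans hn)⟩
  · exact hA.comp (Primrec.pair (Primrec.const c) Primrec.id)
  · exact hA2 (c, w) u hu le_rfl hroots

end Pool.Agent.Results.MP_8d13b5_lc.FixedGroup
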