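import Pool.Agent.Work.Tools.Subspace.Stmts3
import Pool.Agent.Work.MP_8d13b5_lc.Rk.Defs

set_option autoImplicit false

/-!
# The Skolem Problem for recurrences with characteristic roots in a fixed finitely generated group

Statements. The Subspace theorem (`ClaimN`) bounds the zeros of `∑ c_i α_i ^ n` for `S`-units
`α_i` of a fixed number field by a multiple of the logarithmic height of `(c_i)`.
-/

namespace Pool.Agent.Work.MP_8d13b5_lc.Fg

open Height AdmissibleAbsValues Polynomial Finset NumberField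
open Pool.Agent.Work.Tools.Subspace (NV nabv ne nN nO nU nnrm ClaimN)
open Pool.Agent.Work.MP_8d13b5_lc.Rk

/-- H: gap for the heights of numbers that are not roots of unity -/
def ClaimH : Prop :=
  ∀ (K : Type) [Field K] [NumberField K], ∃ h : ℝ, 0 < h ∧ ∀ x : K, x ≠ 0 →
    (∀ m : ℕ, 0 < m → x ^ m ≠ 1) → h ≤ Real.log (mulHeight₁ x)

/-- G1: the Subspace theorem applied to a vanishing sum `∑ c_i α_i = 0` of `k + 1` terms, `α_i`
units at all places outside `S`, when the height of the point is large compared to the height of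
the coefficients: a relation from a finite list -/
def ClaimG1 : Prop :=
  ∀ (K : Type) [Field K] [NumberField K] (S : Finset (FinitePlace K)) (k : ℕ), 2 ≤ k →
    ∃ T : Set (Fin k → K), T.Finite ∧ (∀ b ∈ T, b ≠ 0) ∧
      ∀ (α c : Fin (k + 1) → K), (∀ i, α i ∈ nU S) → (∀ i, c i ≠ 0) → ∑ i, c i * α i = 0 →
        mulHeight c ^ (2 * (k + 1)) ≤ mulHeight (fun i : Fin k => c i.castSucc * α i.castSucc) →
        ∃ b ∈ T, ∑ i : Fin k, b i * (c i.castSucc * α i.castSucc) = 0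

/-- G2: zeros of sums with moving coefficients -/
def ClaimG2 : Prop :=
  ∀ (K : Type) [Field K] [NumberField K] (S : Finset (FinitePlace K)) (k : ℕ), ∃ C : ℝ, 0 ≤ C ∧
    ∀ (α c : Fin k → K), (∀ i, α i ∈ nU S) →
      (∀ i j, i ≠ j → ∀ m : ℕ, 0 < m → (α i / α j) ^ m ≠ 1) → c ≠ 0 →
      ∀ n : ℕ, ∑ i, c i * α i ^ n = 0 → (n : ℝ) ≤ C * (1 + Real.log (mulHeight c))

/-- G2': the same for sums over a finite set of numbers -/
def ClaimG2' : Prop :=
  ∀ (K : Type) [Field K] [NumberField K] (S : Finset (FinitePlace K)) (k : ℕ), ∃ C : ℝ, 0 ≤ C ∧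
    ∀ (T : Finset K) (c : K → K) (B : ℝ), T.card ≤ k → (∀ x ∈ T, x ∈ nU S) →
      (∀ x ∈ T, ∀ y ∈ T, x ≠ y → ∀ m : ℕ, 0 < m → (x / y) ^ m ≠ 1) → (∃ x ∈ T, c x ≠ 0) →
      (∀ x ∈ T, mulHeight₁ (c x) ≤ B) →
      ∀ n : ℕ, ∑ x ∈ T, c x * x ^ n = 0 → (n : ℝ) ≤ C * (1 + Real.log B)

open Classical in
/-- G3: the exponential polynomial of a recurrence, bounds polynomial in the size of the
coefficients for a fixed order -/
def ClaimG3 : Prop :=
  ∀ D : ℕ, ∃ C : ℕ, ∀ (s : ℕ) (K : Type) [Field K] [NumberField K],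
    Module.finrank ℚ K ≤ D → ∀ χ : ℤ[X], χ.Monic → χ.coeff 0 ≠ 0 → χ.natDegree ≤ D →
      (∀ i, |χ.coeff i| ≤ s) → (χ.map (algebraMap ℤ K)).Splits →
        ∀ u : ℕ → ℤ, (∀ i < χ.natDegree, |u i| ≤ s) → Annih χ u →
          ∃ Q : K → K[X], (∀ x, (Q x).natDegree ≤ D) ∧
            ((χ.map (algebraMap ℤ K)).Separable → ∀ x, (Q x).natDegree = 0) ∧
            (∀ x i, mulHeight₁ ((Q x).coeff i) ≤ ((s : ℝ) + 2) ^ C) ∧
            (∀ x : K, aeval x χ = 0 → mulHeight₁ x ≤ ((s : ℝ) + 2) ^ C) ∧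
            ∀ n, (u n : K) = ∑ x ∈ (χ.aroots K).toFinset, (Q x).eval (n : K) * x ^ n

/-- G4: heights of the values and size of the zeros of a polynomial -/
def ClaimG4 : Prop :=
  ∀ D : ℕ, ∃ C : ℕ, ∀ (K : Type) [Field K] [NumberField K], Module.finrank ℚ K ≤ D →
    ∀ (R : K[X]) (b : ℝ) (n : ℕ), R.natDegree ≤ D → (∀ i, mulHeight₁ (R.coeff i) ≤ b) →
      mulHeight₁ (R.eval (n : K)) ≤ (((n : ℝ) + 2) * b) ^ C ∧
      (R ≠ 0 → R.eval (n : K) = 0 → (n : ℝ) ≤ (2 * b) ^ C)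

/-- G5: the zeros of the sequences with characteristic roots in `nU S` -/
def ClaimG5 : Prop :=
  ∀ (K : Type) [Field K] [NumberField K] (S : Finset (FinitePlace K)) (D : ℕ), ∃ M C : ℕ, 0 < M ∧
    ∀ (s : ℕ) (χ : ℤ[X]), χ.Monic → χ.coeff 0 ≠ 0 → χ.natDegree ≤ D → (∀ i, |χ.coeff i| ≤ s) →
      (χ.map (algebraMap ℤ K)).Splits → (∀ x : K, aeval x χ = 0 → x ∈ nU S) →
        ∀ u : ℕ → ℤ, (∀ i < χ.natDegree, |u i| ≤ s) → Annih χ u →
          (∀ n, (s + 2) ^ C ≤ n → u n = 0 → ∀ k, u (n % M + k * M) = 0) ∧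
          ((χ.map (algebraMap ℤ K)).Separable →
            ∀ n, C * (Nat.log 2 (s + 2) + 1) ≤ n → u n = 0 → ∀ k, u (n % M + k * M) = 0)

/-- G6: a finitely generated group of algebraic numbers consists of `S`-units of a number field -/
def ClaimG6 : Prop :=
  ∀ (r : ℕ) (g : Fin r → ℂ), (∀ i, g i ≠ 0 ∧ IsAlgebraic ℚ (g i)) →
    ∃ (K : Type) (_ : Field K) (_ : NumberField K) (S : Finset (FinitePlace K)),
      ∀ χ : ℤ[X], χ.Monic → (∀ z : ℂ, aeval z χ = 0 → ∃ a : Fin r → ℤ, z = ∏ i, g i ^ a i) →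
        (χ.map (algebraMap ℤ K)).Splits ∧ ∀ x : K, aeval x χ = 0 → x ∈ nU S

end Pool.Agent.Work.MP_8d13b5_lc.Fg
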